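import Pool.Agent.H84.CA.Ac

/-!
# H84 CA EV: ring homomorphisms out of power series rings in finitely many variables (CH-ALL)

`mv_hom_ext`: two ring homomorphisms `MvPowerSeries σ A →+* B` (`B` separated for `J`) which agree on the constants and on the
variables, with the variables going into `J`, are equal. `ev_exists`: existence (values: any ring homomorphism on the constants and
elements without constant term at the variables).
-/

set_option autoImplicit false

open scoped Classical

noncomputable section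

namespace Pool.Agent.H84.CA

theorem mem_pow_sub {σ A : Type*} [Finite σ] [CommRing A] (n : ℕ) (x : MvPowerSeries σ A) :
    ∃ q : MvPolynomial σ A, x - (q : MvPowerSeries σ A) ∈ vI σ A ^ n := by
  refine ⟨MvPowerSeries.truncTotal n x, ?_⟩
  rw [mem_vI_pow]
  intro a ha
  rw [map_sub, MvPolynomial.coeff_coe, MvPowerSeries.coeff_truncTotal _ ha, sub_self]

theorem mv_hom_ext {σ A B : Type*} [Finite σ] [CommRing A] [CommRing B] (J : Ideal B) [IsHausdorff J B]
    (f g : MvPowerSeries σ A →+* B) (hC : ∀ a, f (MvPowerSeries.C a) = g (MvPowerSeries.C a))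
    (hX : ∀ i, f (MvPowerSeries.X i) = g (MvPowerSeries.X i)) (hJ : ∀ i, f (MvPowerSeries.X i) ∈ J) : f = g := by
  have h1 : ∀ q : MvPolynomial σ A, f (q : MvPowerSeries σ A) = g (q : MvPowerSeries σ A) := by
    intro q
    have h2 : f.comp (MvPolynomial.coeToMvPowerSeries.ringHom (σ := σ) (R := A)) =
        g.comp (MvPolynomial.coeToMvPowerSeries.ringHom (σ := σ) (R := A)) := by
      refine MvPolynomial.ringHom_ext (fun a => ?_) (fun i => ?_)
      · simpa using hC a
      · simpa using hX i
    exact congrArg (fun F : MvPolynomial σ A →+* B => F q) h2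
  have hle : ∀ F : MvPowerSeries σ A →+* B, (∀ i, F (MvPowerSeries.X i) ∈ J) → ∀ n x, x ∈ vI σ A ^ n → F x ∈ J ^ n := by
    intro F hF n x hx
    have h3 : (vI σ A).map F ≤ J := by
      rw [vI, Ideal.map_span, Ideal.span_le]
      rintro _ ⟨_, ⟨i, rfl⟩, rfl⟩
      exact hF i
    have h4 : F x ∈ (vI σ A ^ n).map F := Ideal.mem_map_of_mem F hx
    rw [Ideal.map_pow] at h4
    exact Ideal.pow_right_mono h3 n h4
  ext x
  rw [← sub_eq_zero]
  refine IsHausdorff.haus (I := J) inferInstance _ fun n => ?_
  rw [SModEq.zero, smul_eq_mul, Ideal.mul_top]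
  obtain ⟨q, hq⟩ := mem_pow_sub n x
  have h5 : f x - g x = f (x - q) - g (x - q) := by
    rw [map_sub, map_sub, h1 q]
    ring
  rw [h5]
  exact sub_mem (hle f hJ n _ hq) (hle g (fun i => hX i ▸ hJ i) n _ hq)

open scoped MvPowerSeries.WithPiTopology in
theorem ev_exists {σ τ A S : Type*} [Finite σ] [CommRing A] [CommRing S] (l : A →+* MvPowerSeries τ S)
    (b : σ → MvPowerSeries τ S) (hb : ∀ i, MvPowerSeries.constantCoeff (b i) = 0) :
    ∃ Φ : MvPowerSeries σ A →+* MvPowerSeries τ S, (∀ a, Φ (MvPowerSeries.C a) = l a) ∧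
      ∀ i, Φ (MvPowerSeries.X i) = b i := by
  let _ : UniformSpace A := ⊥
  let _ : UniformSpace S := ⊥
  have : DiscreteTopology A := ⟨rfl⟩
  have : DiscreteTopology S := ⟨rfl⟩
  have : DiscreteUniformity A := inferInstance
  have : DiscreteUniformity S := inferInstance
  have h1 : MvPowerSeries.HasEval b := by
    refine ⟨fun i => ?_, ?_⟩
    · exact MvPowerSeries.WithPiTopology.isTopologicallyNilpotent_of_constantCoeff_zero (hb i)
    · rw [Filter.cofinite_eq_bot]
      exact Filter.tendsto_bot
  have h2 : Continuous l := continuous_of_discreteTopology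
  refine ⟨MvPowerSeries.eval₂Hom h2 h1, fun a => ?_, fun i => ?_⟩
  · rw [MvPowerSeries.coe_eval₂Hom]
    exact MvPowerSeries.eval₂_C _ _ _
  · rw [MvPowerSeries.coe_eval₂Hom]
    exact MvPowerSeries.eval₂_X _ _ _

end Pool.Agent.H84.CA
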