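import Pool.Agent.H84.CA.Iota
import Pool.Agent.H84.CA.Ev
import Pool.Agent.H13.CA.Com
import Pool.Agent.H61.CA.Kru

/-!
# H84 CA BIG: the interface `IsProj`, `IsBig` is satisfied by `res`, `iota` (CH-ALL)
-/

set_option autoImplicit false

open scoped Classical

noncomputable section

namespace Pool.Agent.H84.CA

open MvPowerSeries Pool.Agent.H13.CA

variable {s : ℕ} {k : Type*} [Field k]

variable (s k) in
/-- `res` as a homomorphism of `k`-algebras -/
def resA : MvPowerSeries (Fin (s + 1)) k →ₐ[k] PowerSeries k :=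
  { res s k with commutes' := fun a => res_C a }

variable (s k) in
/-- `emb` as a homomorphism of `k`-algebras -/
def embA : PowerSeries k →ₐ[k] MvPowerSeries (Fin (s + 1)) k :=
  { emb s k with commutes' := fun a => emb_C a }

theorem resA_apply (x : MvPowerSeries (Fin (s + 1)) k) : resA s k x = res s k x := rfl

theorem embA_apply (a : PowerSeries k) : embA s k a = emb s k a := rfl

theorem isProj_resA : IsProj k s (resA s k) where
  low i := res_X_castSucc i
  high := res_X_last
  ker f := by
    rw [Istd_eq_cI, cI_eq_ker]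
    rfl
  surj := res_surjective

theorem big_proj' (k : Type*) [Field k] (s : ℕ) :
    ∃ π : MvPowerSeries (Fin (s + 1)) k →ₐ[k] PowerSeries k, IsProj k s π := ⟨resA s k, isProj_resA⟩

/-- an endomorphism of the `k`-algebra `k⟦X⟧` which fixes `X` is the identity -/
theorem algHom_id (ψ : PowerSeries k →ₐ[k] PowerSeries k) (h : ψ PowerSeries.X = PowerSeries.X) (a : PowerSeries k) :
    ψ a = a := by
  have hac := ac_vI (σ := Unit) (R := k)
  have h1 : (ψ : PowerSeries k →+* PowerSeries k) = RingHom.id _ := by
    refine mv_hom_ext (σ := Unit) (A := k) (B := MvPowerSeries Unit k) (vI Unit k) _ _ (fun a => ?_) (fun i => ?_)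
      (fun i => ?_)
    · exact ψ.commutes a
    · exact h
    · have h2 : (ψ : PowerSeries k →+* PowerSeries k) (X i : MvPowerSeries Unit k) = (X i : MvPowerSeries Unit k) := h
      rw [h2]
      exact Ideal.subset_span ⟨i, rfl⟩
  exact congrArg (fun F : PowerSeries k →+* PowerSeries k => F a) h1

theorem eq_resA {π : MvPowerSeries (Fin (s + 1)) k →ₐ[k] PowerSeries k} (hπ : IsProj k s π) : π = resA s k := by
  have h1 : ∀ a, π (embA s k a) = a := by
    intro a
    refine algHom_id (π.comp (embA s k)) ?_ a
    change π (emb s k PowerSeries.X) = PowerSeries.X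
    rw [emb_X, hπ.high]
  ext1 x
  have h2 : x - embA s k (res s k x) ∈ Istd k (s + 1) s := by
    rw [Istd_eq_cI, cI_eq_ker, RingHom.mem_ker, map_sub, embA_apply, res_emb, sub_self]
  rw [← hπ.ker, map_sub, h1, sub_eq_zero] at h2
  exact h2

variable (L : Type*) [Field L] [Algebra k L] [Algebra (PowerSeries k) L] [IsScalarTower k (PowerSeries k) L]

variable (s k) in
/-- `iota` as a homomorphism of `k`-algebras -/
def iotaA : MvPowerSeries (Fin (s + 1)) k →ₐ[k] MvPowerSeries (Fin s) L :=
  { iota s k L with
    commutes' := fun a => by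
      have h1 : algebraMap k (MvPowerSeries (Fin s) L) a = C (algebraMap (PowerSeries k) L (PowerSeries.C a)) := by
        rw [MvPowerSeries.algebraMap_apply, IsScalarTower.algebraMap_apply k (PowerSeries k) L]
        rfl
      rw [h1]
      exact iota_C a }

variable {L}

omit [IsScalarTower k (PowerSeries k) L] in
theorem iotaA_apply [IsScalarTower k (PowerSeries k) L] (x : MvPowerSeries (Fin (s + 1)) k) : iotaA s k L x = iota s k L x := rfl

omit [Algebra k L] [IsScalarTower k (PowerSeries k) L] in
theorem isIo_iota : Pool.Agent.H61.CA.IsIo (iota s k L) := by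
  intro f d
  rw [coeff_iota]
  congr 1
  ext e
  rw [coeff_coeff_sl, PowerSeries.coeff_mk]
  congr 2
  refine fin_ext (fun i => ?_) ?_
  · rw [sn_castSucc, Finsupp.add_apply, Finsupp.mapDomain_apply (Fin.castSucc_injective s),
      Finsupp.single_eq_of_ne (Fin.castSucc_lt_last i).ne, add_zero]
  · rw [sn_last, Finsupp.add_apply, Finsupp.mapDomain_of_notMem_range, Finsupp.single_eq_same, zero_add]
    rintro ⟨i, hi⟩
    exact (Fin.castSucc_lt_last i).ne hi

theorem isBig_iotaA (hinj : Function.Injective (algebraMap (PowerSeries k) L)) :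
    IsBig k s (resA s k) L (iotaA s k L) where
  low i := iota_X_castSucc i
  res f := constantCoeff_iota f
  sec := ⟨embA s k, fun a => res_emb a, fun a => iota_emb a⟩
  contr P hP hle := by
    have : FaithfulSMul (PowerSeries k) L := (faithfulSMul_iff_algebraMap_injective (PowerSeries k) L).2 hinj
    refine le_antisymm (fun x hx => ?_) Ideal.le_comap_map
    refine Pool.Agent.H61.CA.kru isIo_iota P hle x fun t => ⟨iota s k L x, hx, ?_⟩
    rw [sub_self]
    intro d _
    exact map_zero _

theorem big' {π : MvPowerSeries (Fin (s + 1)) k →ₐ[k] PowerSeries k} (hπ : IsProj k s π)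
    (hinj : Function.Injective (algebraMap (PowerSeries k) L)) :
    ∃ ι : MvPowerSeries (Fin (s + 1)) k →ₐ[k] MvPowerSeries (Fin s) L, IsBig k s π L ι :=
  ⟨iotaA s k L, eq_resA hπ ▸ isBig_iotaA hinj⟩

section mv

theorem algHom_ext_mv' {k L : Type*} [Field k] [Field L] [Algebra k L] {s t : ℕ}
    {c c' : MvPowerSeries (Fin s) k →ₐ[k] MvPowerSeries (Fin t) L}
    (hc : ∀ i, constantCoeff (c (X i)) = 0) (h : ∀ i, c (X i) = c' (X i)) : c = c' := by
  have hac := ac_ker (σ := Fin t) (R := L)
  have h1 : (c : MvPowerSeries (Fin s) k →+* MvPowerSeries (Fin t) L) = c' := by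
    refine mv_hom_ext (RingHom.ker (constantCoeff (σ := Fin t) (R := L))) _ _ (fun a => ?_) h hc
    exact (c.commutes a).trans (c'.commutes a).symm
  ext1 x
  exact congrArg (fun F : MvPowerSeries (Fin s) k →+* MvPowerSeries (Fin t) L => F x) h1

theorem algHom_exists_mv' {k L : Type*} [Field k] [Field L] [Algebra k L] {s t : ℕ}
    (w : Fin s → MvPowerSeries (Fin t) L) (hw : ∀ i, constantCoeff (w i) = 0) :
    ∃ c : MvPowerSeries (Fin s) k →ₐ[k] MvPowerSeries (Fin t) L, ∀ i, c (X i) = w i := by
  obtain ⟨Φ, h1, h2⟩ := ev_exists (algebraMap k (MvPowerSeries (Fin t) L)) w hw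
  exact ⟨{ Φ with commutes' := fun a => h1 a }, h2⟩

end mv

end Pool.Agent.H84.CA
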