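import Mathlib

/-!
# H84 CA SEP: the unique lift of a separable algebraic extension to a complete ring (CH-ALL)

`κ → K` a separable algebraic extension of fields, `B` complete for `I`, `θ : κ →+* B`, `τ : K →+* B ⧸ I` with `τ = θ` modulo `I` on `κ`:
there is a unique `l : K →+* B` over `θ` with `l = τ` modulo `I`. (Formally étale, `IsAdicComplete.liftRingHom`.)
-/

set_option autoImplicit false

open scoped Classical

noncomputable section

namespace Pool.Agent.H84.CA

universe u v w

variable {κ : Type u} {K : Type v} {B : Type w} [Field κ] [Field K] [CommRing B] [Algebra κ K]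
  [Algebra.IsSeparable κ K]

private theorem sep_nil (J : Ideal B) (hJ : IsNilpotent J) (θ : κ →+* B) (τ : K →+* B ⧸ J)
    (h : τ.comp (algebraMap κ K) = (Ideal.Quotient.mk J).comp θ) :
    ∃ l : K →+* B, l.comp (algebraMap κ K) = θ ∧ (Ideal.Quotient.mk J).comp l = τ := by
  let _ : Algebra κ B := θ.toAlgebra
  have : Algebra.FormallyEtale κ K := Algebra.FormallyEtale.of_isSeparable κ K
  let g : K →ₐ[κ] B ⧸ J := { τ with commutes' := fun r => congrArg (fun f : κ →+* B ⧸ J => f r) h }
  obtain ⟨f, hf⟩ := Algebra.FormallySmooth.exists_lift J hJ g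
  refine ⟨f.toRingHom, ?_, ?_⟩
  · ext r
    exact f.commutes r
  · ext x
    exact congrArg (fun F : K →ₐ[κ] B ⧸ J => F x) hf

private theorem sep_uni (J : Ideal B) (hJ : IsNilpotent J) (l₁ l₂ : K →+* B)
    (h : l₁.comp (algebraMap κ K) = l₂.comp (algebraMap κ K))
    (h' : (Ideal.Quotient.mk J).comp l₁ = (Ideal.Quotient.mk J).comp l₂) : l₁ = l₂ := by
  let _ : Algebra κ B := (l₁.comp (algebraMap κ K)).toAlgebra
  have : Algebra.FormallyUnramified κ K := Algebra.FormallyUnramified.of_isSeparable κ K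
  let f₁ : K →ₐ[κ] B := { l₁ with commutes' := fun r => rfl }
  let f₂ : K →ₐ[κ] B := { l₂ with commutes' := fun r => (congrArg (fun f : κ →+* B => f r) h).symm }
  have h1 : f₁ = f₂ := Algebra.FormallyUnramified.ext J hJ fun x => congrArg (fun f : K →+* B ⧸ J => f x) h'
  ext x
  exact congrArg (fun f : K →ₐ[κ] B => f x) h1

/-- uniqueness -/
theorem sep_unique (I : Ideal B) [IsHausdorff I B] (l₁ l₂ : K →+* B)
    (h : l₁.comp (algebraMap κ K) = l₂.comp (algebraMap κ K))
    (h' : (Ideal.Quotient.mk I).comp l₁ = (Ideal.Quotient.mk I).comp l₂) : l₁ = l₂ := by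
  have h1 : ∀ n : ℕ, (Ideal.Quotient.mk (I ^ n)).comp l₁ = (Ideal.Quotient.mk (I ^ n)).comp l₂ := by
    intro n
    refine sep_uni (κ := κ) (I.map (Ideal.Quotient.mk (I ^ n))) ⟨n, ?_⟩ _ _ ?_ ?_
    · rw [← Ideal.map_pow]
      exact Ideal.map_quotient_self _
    · rw [RingHom.comp_assoc, RingHom.comp_assoc, h]
    · ext x
      have h2 : Ideal.Quotient.mk I (l₁ x) = Ideal.Quotient.mk I (l₂ x) :=
        congrArg (fun f : K →+* B ⧸ I => f x) h'
      have h3 : l₁ x - l₂ x ∈ I := Ideal.Quotient.eq.1 h2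
      show Ideal.Quotient.mk (I.map (Ideal.Quotient.mk (I ^ n))) (Ideal.Quotient.mk (I ^ n) (l₁ x)) =
        Ideal.Quotient.mk (I.map (Ideal.Quotient.mk (I ^ n))) (Ideal.Quotient.mk (I ^ n) (l₂ x))
      rw [Ideal.Quotient.eq, ← map_sub]
      exact Ideal.mem_map_of_mem _ h3
  ext x
  have h2 : l₁ x - l₂ x = 0 := by
    refine IsHausdorff.haus (I := I) inferInstance _ fun n => ?_
    rw [SModEq.zero, smul_eq_mul, Ideal.mul_top, ← Ideal.Quotient.eq]
    exact congrArg (fun f : K →+* B ⧸ I ^ n => f x) (h1 n)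
  exact sub_eq_zero.1 h2

/-- existence -/
theorem sep_lift (I : Ideal B) [IsAdicComplete I B] (θ : κ →+* B) (τ : K →+* B ⧸ I)
    (h : τ.comp (algebraMap κ K) = (Ideal.Quotient.mk I).comp θ) :
    ∃ l : K →+* B, l.comp (algebraMap κ K) = θ ∧ (Ideal.Quotient.mk I).comp l = τ := by
  have h1 : ∀ n : ℕ, ∃ f : K →+* B ⧸ I ^ n, f.comp (algebraMap κ K) = (Ideal.Quotient.mk (I ^ n)).comp θ ∧
      ∀ (x : K) (b : B), Ideal.Quotient.mk (I ^ n) b = f x → n ≠ 0 → Ideal.Quotient.mk I b = τ x := by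
    intro n
    rcases Nat.eq_zero_or_pos n with h0 | hn
    · have hs : Subsingleton (B ⧸ I ^ n) := by
        rw [h0, pow_zero, Ideal.one_eq_top]
        exact Ideal.Quotient.subsingleton_iff.2 rfl
      refine ⟨⟨⟨⟨fun _ => 0, Subsingleton.elim _ _⟩, fun _ _ => Subsingleton.elim _ _⟩,
        Subsingleton.elim _ _, fun _ _ => Subsingleton.elim _ _⟩, ?_, fun _ _ _ hc => absurd h0 hc⟩
      ext x
      exact Subsingleton.elim _ _
    · have hle : I ^ n ≤ I := Ideal.pow_le_self (by omega)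
      have hker : ∀ a ∈ I.map (Ideal.Quotient.mk (I ^ n)), (Ideal.Quotient.factor hle) a = 0 := by
        intro a ha
        have h2 : I.map (Ideal.Quotient.mk (I ^ n)) ≤ RingHom.ker (Ideal.Quotient.factor hle) := by
          rw [Ideal.map_le_iff_le_comap]
          intro b hb
          show (Ideal.Quotient.factor hle) (Ideal.Quotient.mk (I ^ n) b) = 0
          rw [Ideal.Quotient.factor_mk]
          exact Ideal.Quotient.eq_zero_iff_mem.2 hb
        exact h2 ha
      -- the isomorphism `(B / I ^ n) / (I / I ^ n) = B / I`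
      let e : (B ⧸ I ^ n) ⧸ (I.map (Ideal.Quotient.mk (I ^ n))) →+* B ⧸ I :=
        Ideal.Quotient.lift _ (Ideal.Quotient.factor hle) hker
      let e' : B ⧸ I →+* (B ⧸ I ^ n) ⧸ (I.map (Ideal.Quotient.mk (I ^ n))) :=
        Ideal.Quotient.lift I ((Ideal.Quotient.mk (I.map (Ideal.Quotient.mk (I ^ n)))).comp
          (Ideal.Quotient.mk (I ^ n))) fun b hb => by
            show Ideal.Quotient.mk _ (Ideal.Quotient.mk (I ^ n) b) = 0
            exact Ideal.Quotient.eq_zero_iff_mem.2 (Ideal.mem_map_of_mem _ hb)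
      have he : ∀ z, e (e' z) = z := by
        intro z
        obtain ⟨b, rfl⟩ := Ideal.Quotient.mk_surjective z
        show e (Ideal.Quotient.mk _ (Ideal.Quotient.mk (I ^ n) b)) = _
        show (Ideal.Quotient.factor hle) (Ideal.Quotient.mk (I ^ n) b) = _
        rw [Ideal.Quotient.factor_mk]
      obtain ⟨f, hf1, hf2⟩ := sep_nil (κ := κ) (K := K) (I.map (Ideal.Quotient.mk (I ^ n)))
        ⟨n, by
          rw [← Ideal.map_pow]
          exact Ideal.map_quotient_self _⟩ ((Ideal.Quotient.mk (I ^ n)).comp θ) (e'.comp τ) (by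
            rw [RingHom.comp_assoc, h]
            ext r
            rfl)
      refine ⟨f, hf1, fun x b hb _ => ?_⟩
      have h3 : Ideal.Quotient.mk _ (f x) = e' (τ x) := congrArg (fun F : K →+* _ => F x) hf2
      have h4 : e (Ideal.Quotient.mk _ (f x)) = τ x := by rw [h3, he]
      rw [← h4, ← hb]
      show _ = (Ideal.Quotient.factor hle) (Ideal.Quotient.mk (I ^ n) b)
      rw [Ideal.Quotient.factor_mk]
  choose f hf1 hf2 using h1
  have hcomp : ∀ {m n : ℕ} (hle : m ≤ n), (Ideal.Quotient.factorPow I hle).comp (f n) = f m := by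
    intro m n hle
    refine sep_uni (κ := κ) (I.map (Ideal.Quotient.mk (I ^ m))) ⟨m, ?_⟩ _ _ ?_ ?_
    · rw [← Ideal.map_pow]
      exact Ideal.map_quotient_self _
    · rw [RingHom.comp_assoc, hf1 n, hf1 m]
      ext r
      rfl
    · ext x
      rcases Nat.eq_zero_or_pos m with h0 | hm
      · have hs : Subsingleton (B ⧸ I ^ m) := by
          rw [h0, pow_zero, Ideal.one_eq_top]
          exact Ideal.Quotient.subsingleton_iff.2 rfl
        exact congrArg (Ideal.Quotient.mk (I.map (Ideal.Quotient.mk (I ^ m))))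
          (Subsingleton.elim (α := B ⧸ I ^ m) ((Ideal.Quotient.factorPow I hle) (f n x)) (f m x))
      · obtain ⟨b, hb⟩ := Ideal.Quotient.mk_surjective (f n x)
        obtain ⟨c, hc⟩ := Ideal.Quotient.mk_surjective (f m x)
        have e1 := hf2 n x b hb (by omega)
        have e2 := hf2 m x c hc (by omega)
        show Ideal.Quotient.mk _ ((Ideal.Quotient.factorPow I hle) (f n x)) = Ideal.Quotient.mk _ (f m x)
        rw [← hb, ← hc]
        have e3 : (Ideal.Quotient.factorPow I hle) (Ideal.Quotient.mk (I ^ n) b) = Ideal.Quotient.mk (I ^ m) b := rfl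
        rw [e3, Ideal.Quotient.eq, ← map_sub]
        refine Ideal.mem_map_of_mem _ (Ideal.Quotient.eq.1 ?_)
        rw [e1, e2]
  refine ⟨IsAdicComplete.liftRingHom I f hcomp, ?_, ?_⟩
  · ext r
    refine sub_eq_zero.1 (IsHausdorff.haus (I := I) inferInstance _ fun n => ?_)
    rw [SModEq.zero, smul_eq_mul, Ideal.mul_top, ← Ideal.Quotient.eq]
    show Ideal.Quotient.mk (I ^ n) (IsAdicComplete.liftRingHom I f hcomp (algebraMap κ K r)) = _
    rw [IsAdicComplete.mk_liftRingHom]
    exact congrArg (fun F : κ →+* B ⧸ I ^ n => F r) (hf1 n)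
  · ext x
    exact hf2 1 x _ (IsAdicComplete.mk_liftRingHom I f hcomp 1 x) one_ne_zero

end Pool.Agent.H84.CA
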