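import Pool.Agent.H84.CA.Iota
import Pool.Agent.H84.CA.Ev
import Pool.Agent.H84.CA.Sep
import Pool.Agent.H13.CA.Com

/-!
# H84 CA HENS: unique extension of automorphisms to `L⟦u_1, .., u_s⟧` (CH-ALL), for the abstract interface `IsProj`, `IsBig`

`hens_hom` (existence for ring homomorphisms), `hens_unique`, `hens'` (automorphisms).
-/

set_option autoImplicit false

open scoped Classical

noncomputable section

namespace Pool.Agent.H84.CA

open MvPowerSeries Pool.Agent.H13.CA

variable {s : ℕ} {k : Type*} [Field k] {π : MvPowerSeries (Fin (s + 1)) k →ₐ[k] PowerSeries k}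

/-- two ring homomorphisms, equal on a section of `k⟦u⟧` and on the first variables, are equal -/
theorem sec_hom_ext {B : Type*} [CommRing B] (J : Ideal B) [IsHausdorff J B] (hπ : IsProj k s π)
    {sec : PowerSeries k →ₐ[k] MvPowerSeries (Fin (s + 1)) k} (hsec : ∀ a, π (sec a) = a)
    (f g : MvPowerSeries (Fin (s + 1)) k →+* B) (hC : ∀ a, f (sec a) = g (sec a))
    (hX : ∀ i : Fin s, f (X i.castSucc) = g (X i.castSucc)) (hJ : ∀ i : Fin s, f (X i.castSucc) ∈ J) : f = g := by
  have key : ∀ n x, f x - g x ∈ J ^ n := by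
    intro n
    induction n with
    | zero =>
      intro x
      rw [pow_zero, Ideal.one_eq_top]
      exact Submodule.mem_top
    | succ n ih =>
      intro x
      have h1 : x - sec (π x) ∈ cI s k := by
        rw [← Istd_eq_cI, ← hπ.ker, map_sub, hsec, sub_self]
      obtain ⟨c, hc⟩ := (Ideal.mem_span_range_iff_exists_fun).1 h1
      have h2 : x = sec (π x) + ∑ i, c i * X i.castSucc := by
        rw [hc]
        ring
      have h3 : f x - g x = ∑ i, (f (c i) - g (c i)) * f (X i.castSucc) := by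
        have h4 : f x = f (sec (π x)) + ∑ i, f (c i) * f (X i.castSucc) := by
          conv_lhs => rw [h2]
          rw [map_add, map_sum]
          simp only [map_mul]
        have h5 : g x = g (sec (π x)) + ∑ i, g (c i) * g (X i.castSucc) := by
          conv_lhs => rw [h2]
          rw [map_add, map_sum]
          simp only [map_mul]
        rw [h4, h5, hC, add_sub_add_left_eq_sub, ← Finset.sum_sub_distrib]
        refine Finset.sum_congr rfl fun i _ => ?_
        rw [hX]
        ring
      rw [h3, pow_succ]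
      exact Ideal.sum_mem _ fun i _ => Ideal.mul_mem_mul (ih _) (hJ i)
  ext x
  rw [← sub_eq_zero]
  refine IsHausdorff.haus (I := J) inferInstance _ fun n => ?_
  rw [SModEq.zero, smul_eq_mul, Ideal.mul_top]
  exact key n x

variable {K L : Type*} [Field K] [Field L] [Algebra k L] [Algebra (PowerSeries k) K] [IsFractionRing (PowerSeries k) K]
  [Algebra K L] [Algebra (PowerSeries k) L] [IsScalarTower (PowerSeries k) K L] [Algebra.IsSeparable K L]
  {ι : MvPowerSeries (Fin (s + 1)) k →ₐ[k] MvPowerSeries (Fin s) L}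

variable (K) in
include K in
/-- uniqueness of the extension -/
theorem hens_unique (_hπ : IsProj k s π) (hι : IsBig k s π L ι)
    {Φ Φ' : MvPowerSeries (Fin s) L →+* MvPowerSeries (Fin s) L} {τ : L →+* L}
    (h1 : ∀ x, Φ (ι x) = Φ' (ι x))
    (h2 : ∀ y, constantCoeff (Φ y) = τ (constantCoeff y))
    (h3 : ∀ y, constantCoeff (Φ' y) = τ (constantCoeff y)) : Φ = Φ' := by
  have hac := ac_ker (σ := Fin s) (R := L)
  obtain ⟨sec, hsec, hsec'⟩ := hι.sec
  refine mv_hom_ext (RingHom.ker (constantCoeff (σ := Fin s) (R := L))) Φ Φ' (fun a => ?_) (fun i => ?_) (fun i => ?_)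
  · have h4 : Φ.comp (C (σ := Fin s) (R := L)) = Φ'.comp (C (σ := Fin s) (R := L)) := by
      refine sep_unique (κ := K) (RingHom.ker (constantCoeff (σ := Fin s) (R := L))) _ _ ?_ ?_
      · refine IsLocalization.ringHom_ext (nonZeroDivisors (PowerSeries k)) ?_
        ext1 a
        change Φ (C (algebraMap K L (algebraMap (PowerSeries k) K a))) =
          Φ' (C (algebraMap K L (algebraMap (PowerSeries k) K a)))
        rw [← IsScalarTower.algebraMap_apply, ← hsec', h1]
      · ext1 a
        refine Ideal.Quotient.eq.2 ?_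
        rw [RingHom.mem_ker, map_sub]
        change constantCoeff (Φ (C a)) - constantCoeff (Φ' (C a)) = 0
        rw [h2, h3, sub_self]
    exact congrArg (fun F : L →+* MvPowerSeries (Fin s) L => F a) h4
  · rw [← hι.low i, h1]
  · rw [RingHom.mem_ker, h2, constantCoeff_X, map_zero]

variable (K) in
include K in
/-- existence of the extension, for ring homomorphisms -/
theorem hens_hom (hπ : IsProj k s π) (hι : IsBig k s π L ι)
    (g : MvPowerSeries (Fin (s + 1)) k →+* MvPowerSeries (Fin (s + 1)) k) (τ : L →+* L)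
    (hc : ∀ f, τ (algebraMap (PowerSeries k) L (π f)) = algebraMap (PowerSeries k) L (π (g f))) :
    ∃ Φ : MvPowerSeries (Fin s) L →+* MvPowerSeries (Fin s) L, (∀ f, Φ (ι f) = ι (g f)) ∧
      ∀ y, constantCoeff (Φ y) = τ (constantCoeff y) := by
  have hac := ac_ker (σ := Fin s) (R := L)
  obtain ⟨sec, hsec, hsec'⟩ := hι.sec
  have hinj : Function.Injective (algebraMap (PowerSeries k) L) := by
    rw [IsScalarTower.algebraMap_eq (PowerSeries k) K L]
    exact (algebraMap K L).injective.comp (IsFractionRing.injective (PowerSeries k) K)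
  obtain ⟨θ0, hθ0⟩ : ∃ θ0 : PowerSeries k →+* MvPowerSeries (Fin s) L, ∀ a, θ0 a = ι (g (sec a)) :=
    ⟨(ι : MvPowerSeries (Fin (s + 1)) k →+* MvPowerSeries (Fin s) L).comp (g.comp (sec : PowerSeries k →+* _)),
      fun a => rfl⟩
  have hcc : ∀ a, constantCoeff (θ0 a) = τ (algebraMap (PowerSeries k) L a) := by
    intro a
    rw [hθ0, hι.res, ← hc, hsec]
  have hu : ∀ a : nonZeroDivisors (PowerSeries k), IsUnit (θ0 a) := by
    intro a
    rw [MvPowerSeries.isUnit_iff_constantCoeff, hcc, isUnit_iff_ne_zero]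
    intro h
    rw [map_eq_zero_iff τ τ.injective, map_eq_zero_iff _ hinj] at h
    exact nonZeroDivisors.ne_zero a.2 h
  obtain ⟨θ, hθ⟩ : ∃ θ : K →+* MvPowerSeries (Fin s) L, ∀ a, θ (algebraMap (PowerSeries k) K a) = θ0 a :=
    ⟨IsLocalization.lift hu, fun a => IsLocalization.lift_eq hu a⟩
  obtain ⟨l, hl1, hl2⟩ := sep_lift (κ := K) (RingHom.ker (constantCoeff (σ := Fin s) (R := L))) θ
    ((Ideal.Quotient.mk _).comp ((C (σ := Fin s) (R := L)).comp τ)) (by
      refine IsLocalization.ringHom_ext (nonZeroDivisors (PowerSeries k)) ?_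
      ext1 a
      refine Ideal.Quotient.eq.2 ?_
      rw [RingHom.mem_ker, map_sub]
      change constantCoeff (C (τ (algebraMap K L (algebraMap (PowerSeries k) K a)))) -
        constantCoeff (θ (algebraMap (PowerSeries k) K a)) = 0
      rw [hθ, hcc, constantCoeff_C, ← IsScalarTower.algebraMap_apply, sub_self])
  have hl3 : ∀ a, constantCoeff (l a) = τ a := by
    intro a
    have h1 := congrArg (fun F : L →+* _ => F a) hl2
    have h2 := Ideal.Quotient.eq.1 h1
    rw [RingHom.mem_ker, map_sub, sub_eq_zero] at h2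
    rw [h2]
    exact constantCoeff_C _
  have hl4 : ∀ a, l (algebraMap (PowerSeries k) L a) = ι (g (sec a)) := by
    intro a
    rw [IsScalarTower.algebraMap_apply (PowerSeries k) K L, ← hθ0, ← hθ]
    exact congrArg (fun F : K →+* MvPowerSeries (Fin s) L => F (algebraMap (PowerSeries k) K a)) hl1
  have hb : ∀ i : Fin s, constantCoeff (ι (g (X i.castSucc))) = 0 := by
    intro i
    rw [hι.res, ← hc, hπ.low, map_zero, map_zero]
  obtain ⟨Φ, hΦ1, hΦ2⟩ := ev_exists l (fun i : Fin s => ι (g (X i.castSucc))) hb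
  refine ⟨Φ, ?_, ?_⟩
  · have h1 : Φ.comp (ι : MvPowerSeries (Fin (s + 1)) k →+* MvPowerSeries (Fin s) L) =
        (ι : MvPowerSeries (Fin (s + 1)) k →+* MvPowerSeries (Fin s) L).comp g := by
      refine sec_hom_ext (RingHom.ker (constantCoeff (σ := Fin s) (R := L))) hπ hsec _ _ (fun a => ?_) (fun i => ?_)
        (fun i => ?_)
      · change Φ (ι (sec a)) = ι (g (sec a))
        rw [hsec', hΦ1, hl4]
      · change Φ (ι (X i.castSucc)) = ι (g (X i.castSucc))
        rw [hι.low, hΦ2]
      · change Φ (ι (X i.castSucc)) ∈ _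
        rw [hι.low, hΦ2, RingHom.mem_ker]
        exact hb i
    intro x
    exact congrArg (fun F : MvPowerSeries (Fin (s + 1)) k →+* MvPowerSeries (Fin s) L => F x) h1
  · have h1 : (constantCoeff (σ := Fin s) (R := L)).comp Φ = τ.comp (constantCoeff (σ := Fin s) (R := L)) := by
      refine mv_hom_ext (⊥ : Ideal L) _ _ (fun a => ?_) (fun i => ?_) (fun i => ?_)
      · change constantCoeff (Φ (C a)) = τ (constantCoeff (C a))
        rw [hΦ1, hl3, constantCoeff_C]
      · change constantCoeff (Φ (X i)) = τ (constantCoeff (X i))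
        rw [hΦ2, hb, constantCoeff_X, map_zero]
      · change constantCoeff (Φ (X i)) ∈ (⊥ : Ideal L)
        rw [hΦ2, hb]
        exact zero_mem _
    intro y
    exact congrArg (fun F : MvPowerSeries (Fin s) L →+* L => F y) h1

variable (K) in
include K in
/-- the extension of an automorphism -/
theorem hens' (hπ : IsProj k s π) (hι : IsBig k s π L ι)
    (g : MvPowerSeries (Fin (s + 1)) k ≃ₐ[k] MvPowerSeries (Fin (s + 1)) k) (τ : L ≃ₐ[k] L)
    (hτ : ∀ f, τ (algebraMap (PowerSeries k) L (π f)) = algebraMap (PowerSeries k) L (π (g f))) :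
    ∃ α : MvPowerSeries (Fin s) L ≃ₐ[k] MvPowerSeries (Fin s) L,
      (∀ f, α (ι f) = ι (g f)) ∧ ∀ x, constantCoeff (α x) = τ (constantCoeff x) := by
  have hτ' : ∀ f, τ.symm (algebraMap (PowerSeries k) L (π f)) = algebraMap (PowerSeries k) L (π (g.symm f)) := by
    intro f
    rw [AlgEquiv.symm_apply_eq, hτ, AlgEquiv.apply_symm_apply]
  obtain ⟨Φ, h1, h2⟩ := hens_hom K hπ hι (g : MvPowerSeries (Fin (s + 1)) k →+* MvPowerSeries (Fin (s + 1)) k)
    (τ : L →+* L) hτ
  obtain ⟨Ψ, h3, h4⟩ := hens_hom K hπ hι (g.symm : MvPowerSeries (Fin (s + 1)) k →+* MvPowerSeries (Fin (s + 1)) k)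
    (τ.symm : L →+* L) hτ'
  have h5 : Φ.comp Ψ = RingHom.id _ := by
    refine hens_unique K hπ hι (τ := RingHom.id L) (fun x => ?_) (fun y => ?_) (fun y => rfl)
    · rw [RingHom.comp_apply, h3, h1]
      change ι (g (g.symm x)) = ι x
      rw [AlgEquiv.apply_symm_apply]
    · rw [RingHom.comp_apply, h2, h4]
      change τ (τ.symm _) = _
      rw [AlgEquiv.apply_symm_apply]
      rfl
  have h6 : Ψ.comp Φ = RingHom.id _ := by
    refine hens_unique K hπ hι (τ := RingHom.id L) (fun x => ?_) (fun y => ?_) (fun y => rfl)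
    · rw [RingHom.comp_apply, h1, h3]
      change ι (g.symm (g x)) = ι x
      rw [AlgEquiv.symm_apply_apply]
    · rw [RingHom.comp_apply, h4, h2]
      change τ.symm (τ _) = _
      rw [AlgEquiv.symm_apply_apply]
      rfl
  refine ⟨AlgEquiv.ofRingEquiv (f := RingEquiv.ofRingHom Φ Ψ h5 h6) (fun r => ?_), fun f => h1 f, fun x => h2 x⟩
  change Φ (algebraMap k _ r) = algebraMap k _ r
  rw [← ι.commutes, h1]
  change ι (g (algebraMap k _ r)) = _
  rw [AlgEquiv.commutes]

end Pool.Agent.H84.CA
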