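import Pool.Agent.H13.CA.Com
import Pool.Agent.H49.CA.Minp

/-!
# H84 CA C9: the radical of a stable ideal is standard (CH-ALL)
-/

set_option autoImplicit false

open scoped Classical

namespace Pool.Agent.H84.CA

open MvPowerSeries Pool.Agent.H13.CA

theorem rad_of_minp {k : Type*} [Field k] {m : ℕ} (I : Ideal (MvPowerSeries (Fin m) k)) (htop : I ≠ ⊤)
    (h : ∀ Q ∈ I.minimalPrimes, ∃ j, j ≤ m ∧ Q = Istd k m j) : ∃ j, j ≤ m ∧ I.radical = Istd k m j := by
  have hmono : ∀ {i j : ℕ}, i ≤ j → Istd k m i ≤ Istd k m j := fun hij =>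
    Ideal.span_mono fun _ ⟨l, hl, hx⟩ => ⟨l, by omega, hx⟩
  obtain ⟨Q, hQ⟩ := I.nonempty_minimalPrimes htop
  obtain ⟨j, hj, rfl⟩ := h Q hQ
  refine ⟨j, hj, ?_⟩
  have h1 : I.minimalPrimes = {Istd k m j} := by
    ext Q'
    constructor
    · intro hQ'
      obtain ⟨j', -, rfl⟩ := h Q' hQ'
      rcases le_total j j' with hle | hle
      · exact le_antisymm (hQ'.2 hQ.1 (hmono hle)) (hmono hle)
      · exact le_antisymm (hmono hle) (hQ.2 hQ'.1 (hmono hle))
    · intro hQ'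
      have h2 : Q' = Istd k m j := hQ'
      rw [h2]
      exact hQ
  rw [← Ideal.sInf_minimalPrimes, h1, sInf_singleton]

theorem rad_eq {k : Type*} [Field k] {p m : ℕ} (hC : ChaiA k p m)
    {F : FormalGroup (MvPowerSeries (Fin m) k)} (hF : IsLT k p m F)
    (V : Subgroup (Lift k F)) (hV : Ample V) (I : Ideal (MvPowerSeries (Fin m) k))
    (hI : ∀ a ∈ V, I.map (a.g : MvPowerSeries (Fin m) k →+* MvPowerSeries (Fin m) k) ≤ I)
    (htop : I ≠ ⊤) : ∃ j, j ≤ m ∧ I.radical = Istd k m j := by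
  obtain ⟨W, -, hW, hst⟩ := Pool.Agent.H49.CA.ample_minp V hV I hI
  exact rad_of_minp I htop fun Q hQ => hC F hF Q hQ.1.1 W hW fun a ha => hst a ha Q hQ

end Pool.Agent.H84.CA
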