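import Mathlib

/-!
# H84 CA AC: power series rings in finitely many variables are complete (CH-ALL)

`vI σ R`: the ideal of `MvPowerSeries σ R` generated by the variables (`σ` finite). `mem_vI_pow`: `f ∈ vI ^ n` iff all coefficients of degree
`< n` vanish. `vI_eq_ker`: it is the kernel of `constantCoeff`. `ac_vI`, `ac_ker`: `IsAdicComplete`.
-/

set_option autoImplicit false

open scoped Classical

noncomputable section

namespace Pool.Agent.H84.CA

variable {σ : Type*} {R : Type*} [CommRing R]

variable (σ R) in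
/-- the ideal generated by the variables -/
def vI : Ideal (MvPowerSeries σ R) := Ideal.span (Set.range fun i : σ => (MvPowerSeries.X i : MvPowerSeries σ R))

variable (σ R) in
/-- the ideal of the power series of order at least `n` -/
def oI (n : ℕ) : Ideal (MvPowerSeries σ R) where
  carrier := {f | ∀ x : σ →₀ ℕ, x.degree < n → MvPowerSeries.coeff x f = 0}
  add_mem' := by
    intro a b ha hb x hx
    rw [map_add, ha x hx, hb x hx, add_zero]
  zero_mem' := by
    intro x _
    exact map_zero _
  smul_mem' := by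
    intro c f hf x hx
    rw [smul_eq_mul, MvPowerSeries.coeff_mul]
    refine Finset.sum_eq_zero fun p hp => ?_
    have h1 : p.1 + p.2 = x := Finset.HasAntidiagonal.mem_antidiagonal.1 hp
    have h2 : p.2.degree < n := by
      have h3 : p.1.degree + p.2.degree = x.degree := by rw [← map_add, h1]
      omega
    rw [hf p.2 h2, mul_zero]

theorem mem_oI {n : ℕ} {f : MvPowerSeries σ R} :
    f ∈ oI σ R n ↔ ∀ x : σ →₀ ℕ, x.degree < n → MvPowerSeries.coeff x f = 0 := Iff.rfl

theorem oI_mul {a b : ℕ} {f g : MvPowerSeries σ R} (hf : f ∈ oI σ R a) (hg : g ∈ oI σ R b) :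
    f * g ∈ oI σ R (a + b) := by
  intro x hx
  rw [MvPowerSeries.coeff_mul]
  refine Finset.sum_eq_zero fun p hp => ?_
  have h1 : p.1 + p.2 = x := Finset.HasAntidiagonal.mem_antidiagonal.1 hp
  have h3 : p.1.degree + p.2.degree = x.degree := by rw [← map_add, h1]
  rcases lt_or_ge p.1.degree a with h | h
  · rw [hf p.1 h, zero_mul]
  · rw [hg p.2 (by omega), mul_zero]

theorem X_mem_oI (i : σ) : (MvPowerSeries.X i : MvPowerSeries σ R) ∈ oI σ R 1 := by
  intro x hx
  have h0 : x = 0 := (Finsupp.degree_eq_zero_iff x).1 (by omega)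
  rw [h0]
  exact MvPowerSeries.coeff_zero_X i

theorem vI_pow_le (n : ℕ) : vI σ R ^ n ≤ oI σ R n := by
  have h1 : vI σ R ≤ oI σ R 1 := by
    rw [vI, Ideal.span_le]
    rintro _ ⟨i, rfl⟩
    exact X_mem_oI i
  induction n with
  | zero =>
    intro f _ x hx
    omega
  | succ n ih =>
    rw [pow_succ]
    exact Ideal.mul_le.2 fun f hf g hg => oI_mul (ih hf) (h1 hg)

/-- a distinguished variable of a monomial -/
private def ch (x : σ →₀ ℕ) (i : σ) : Prop := ∃ h : x.support.Nonempty, h.choose = i

private def qt (f : MvPowerSeries σ R) (i : σ) : MvPowerSeries σ R :=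
  fun y => if ch (y + Finsupp.single i 1) i then MvPowerSeries.coeff (y + Finsupp.single i 1) f else 0

private theorem coeff_qt (f : MvPowerSeries σ R) (i : σ) (y : σ →₀ ℕ) :
    MvPowerSeries.coeff y (qt f i) =
      if ch (y + Finsupp.single i 1) i then MvPowerSeries.coeff (y + Finsupp.single i 1) f else 0 := rfl

private theorem sum_qt [Fintype σ] {f : MvPowerSeries σ R} (hf : f ∈ oI σ R 1) :
    ∑ i, MvPowerSeries.X i * qt f i = f := by
  ext x
  rw [map_sum]
  have h1 : ∀ i : σ, MvPowerSeries.coeff x (MvPowerSeries.X i * qt f i) =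
      if ch x i then MvPowerSeries.coeff x f else 0 := by
    intro i
    rw [MvPowerSeries.X_def, MvPowerSeries.coeff_monomial_mul]
    by_cases hi : Finsupp.single i 1 ≤ x
    · rw [if_pos hi, one_mul, coeff_qt, tsub_add_cancel_of_le hi]
    · rw [if_neg hi, if_neg]
      rintro ⟨h, hc⟩
      apply hi
      have h2 := h.choose_spec
      rw [hc, Finsupp.mem_support_iff] at h2
      rw [Finsupp.single_le_iff]
      omega
  rw [Finset.sum_congr rfl fun i _ => h1 i]
  by_cases hx : x.support.Nonempty
  · rw [Finset.sum_eq_single hx.choose]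
    · rw [if_pos ⟨hx, rfl⟩]
    · intro i _ hi
      rw [if_neg]
      rintro ⟨h, hc⟩
      exact hi hc.symm
    · intro h
      exact absurd (Finset.mem_univ _) h
  · have hx0 : x = 0 := by
      rw [Finset.not_nonempty_iff_eq_empty, Finsupp.support_eq_empty] at hx
      exact hx
    rw [Finset.sum_eq_zero]
    · rw [hx0]
      exact (hf 0 (by simp)).symm
    · intro i _
      rw [if_neg]
      rintro ⟨h, _⟩
      exact hx h

theorem le_vI_pow [Finite σ] (n : ℕ) : oI σ R n ≤ vI σ R ^ n := by
  cases nonempty_fintype σ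
  induction n with
  | zero =>
    intro f _
    rw [pow_zero, Ideal.one_eq_top]
    exact Submodule.mem_top
  | succ n ih =>
    intro f hf
    have h1 : f ∈ oI σ R 1 := fun x hx => hf x (by omega)
    rw [← sum_qt h1, pow_succ']
    refine Ideal.sum_mem _ fun i _ => Ideal.mul_mem_mul (Ideal.subset_span ⟨i, rfl⟩) (ih ?_)
    intro y hy
    rw [coeff_qt]
    split_ifs with h
    · refine hf _ ?_
      rw [map_add, Finsupp.degree_single]
      omega
    · rfl

theorem vI_pow [Finite σ] (n : ℕ) : vI σ R ^ n = oI σ R n := le_antisymm (vI_pow_le n) (le_vI_pow n)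

theorem mem_vI_pow [Finite σ] {n : ℕ} {f : MvPowerSeries σ R} :
    f ∈ vI σ R ^ n ↔ ∀ x : σ →₀ ℕ, x.degree < n → MvPowerSeries.coeff x f = 0 := by
  rw [vI_pow]
  rfl

theorem vI_eq_ker [Finite σ] : vI σ R = RingHom.ker (MvPowerSeries.constantCoeff (σ := σ) (R := R)) := by
  ext f
  rw [← pow_one (vI σ R), mem_vI_pow, RingHom.mem_ker, ← MvPowerSeries.coeff_zero_eq_constantCoeff_apply]
  constructor
  · intro h
    exact h 0 (by simp)
  · intro h x hx
    have h0 : x = 0 := (Finsupp.degree_eq_zero_iff x).1 (by omega)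
    rw [h0]
    exact h

theorem ac_vI [Finite σ] : IsAdicComplete (vI σ R) (MvPowerSeries σ R) where
  haus' := by
    intro f hf
    ext x
    have h := hf (x.degree + 1)
    rw [SModEq.zero, smul_eq_mul, Ideal.mul_top, mem_vI_pow] at h
    rw [h x (by omega)]
    exact (map_zero _).symm
  prec' := by
    intro f hf
    have hf' : ∀ {m n : ℕ}, m ≤ n → ∀ x : σ →₀ ℕ, x.degree < m →
        MvPowerSeries.coeff x (f m) = MvPowerSeries.coeff x (f n) := by
      intro m n hmn x hx
      have h := hf hmn
      rw [SModEq.sub_mem, smul_eq_mul, Ideal.mul_top, mem_vI_pow] at h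
      have h1 := h x hx
      rw [map_sub] at h1
      exact sub_eq_zero.1 h1
    obtain ⟨L, hL⟩ : ∃ L : MvPowerSeries σ R, ∀ x : σ →₀ ℕ,
        MvPowerSeries.coeff x L = MvPowerSeries.coeff x (f (x.degree + 1)) :=
      ⟨fun x => MvPowerSeries.coeff x (f (x.degree + 1)), fun x => rfl⟩
    refine ⟨L, fun n => ?_⟩
    rw [SModEq.sub_mem, smul_eq_mul, Ideal.mul_top, mem_vI_pow]
    intro x hx
    rw [map_sub, sub_eq_zero, hL]
    exact (hf' (m := x.degree + 1) (n := n) (by omega) x (by omega)).symm

theorem ac_ker [Finite σ] :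
    IsAdicComplete (RingHom.ker (MvPowerSeries.constantCoeff (σ := σ) (R := R))) (MvPowerSeries σ R) := by
  rw [← vI_eq_ker]
  exact ac_vI

end Pool.Agent.H84.CA
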