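import Pool.Agent.H84.CA.Iota
import Pool.Agent.H84.CA.Ev
import Pool.Agent.H84.CA.Sep

/-!
# H84 CA PHI: the extension of a pair `(g, τ)` to `K⟦v_1, .., v_m⟧` (CH-ALL)

`k` a field, `κ` the fraction field of `k⟦X⟧`, `K` a separable algebraic extension of `κ`, `B = MvPowerSeries (Fin m) K`,
`R = MvPowerSeries (Fin (m + 1)) k`, `iota : R → B`, `res : R → k⟦X⟧`. A pair `(g, τ)` of ring homomorphisms `R → R`, `K → K`
is compatible if `τ (algebraMap (res x)) = algebraMap (res (g x))` for all `x`. Then there is exactly one ring homomorphism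
`Φ : B → B` with `Φ (iota x) = iota (g x)` and `constantCoeff (Φ y) = τ (constantCoeff y)`.
-/

set_option autoImplicit false

open scoped Classical

noncomputable section

namespace Pool.Agent.H84.CA

variable {m : ℕ} {k κ K : Type*} [Field k] [Field κ] [Field K] [Algebra (PowerSeries k) κ]
  [IsFractionRing (PowerSeries k) κ] [Algebra κ K] [Algebra (PowerSeries k) K] [IsScalarTower (PowerSeries k) κ K]
  [Algebra.IsSeparable κ K]

/-- two ring homomorphisms `R → B`, equal on `k⟦u⟧` and on the `X i.castSucc`, are equal -/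
theorem R_hom_ext {B : Type*} [CommRing B] (J : Ideal B) [IsHausdorff J B]
    (f g : MvPowerSeries (Fin (m + 1)) k →+* B) (hC : ∀ a, f (emb m k a) = g (emb m k a))
    (hX : ∀ i : Fin m, f (MvPowerSeries.X i.castSucc) = g (MvPowerSeries.X i.castSucc))
    (hJ : ∀ i : Fin m, f (MvPowerSeries.X i.castSucc) ∈ J) : f = g := by
  have hs : ∀ i : Fin m, (sl m k).symm (MvPowerSeries.X i) = MvPowerSeries.X i.castSucc := fun i => by
    rw [← sl_X_castSucc, RingEquiv.symm_apply_apply]
  have h : f.comp ((sl m k).symm : MvPowerSeries (Fin m) (PowerSeries k) →+* MvPowerSeries (Fin (m + 1)) k) =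
      g.comp ((sl m k).symm : MvPowerSeries (Fin m) (PowerSeries k) →+* MvPowerSeries (Fin (m + 1)) k) := by
    refine mv_hom_ext J _ _ (fun a => hC a) (fun i => ?_) (fun i => ?_)
    · change f ((sl m k).symm (MvPowerSeries.X i)) = g ((sl m k).symm (MvPowerSeries.X i))
      rw [hs, hX]
    · change f ((sl m k).symm (MvPowerSeries.X i)) ∈ J
      rw [hs]
      exact hJ i
  ext x
  have h1 := congrArg (fun F : MvPowerSeries (Fin m) (PowerSeries k) →+* B => F (sl m k x)) h
  change f ((sl m k).symm (sl m k x)) = g ((sl m k).symm (sl m k x)) at h1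
  rwa [RingEquiv.symm_apply_apply] at h1

include κ in
omit [Algebra.IsSeparable κ K] in
theorem algMap_inj : Function.Injective (algebraMap (PowerSeries k) K) := by
  rw [IsScalarTower.algebraMap_eq (PowerSeries k) κ K]
  exact (algebraMap κ K).injective.comp (IsFractionRing.injective (PowerSeries k) κ)

variable (κ) in
include κ in
theorem phi_unique {Φ Φ' : MvPowerSeries (Fin m) K →+* MvPowerSeries (Fin m) K} {τ : K →+* K}
    (h1 : ∀ x, Φ (iota m k K x) = Φ' (iota m k K x))
    (h2 : ∀ y, MvPowerSeries.constantCoeff (Φ y) = τ (MvPowerSeries.constantCoeff y))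
    (h3 : ∀ y, MvPowerSeries.constantCoeff (Φ' y) = τ (MvPowerSeries.constantCoeff y)) : Φ = Φ' := by
  have hac := ac_ker (σ := Fin m) (R := K)
  refine mv_hom_ext (RingHom.ker (MvPowerSeries.constantCoeff (σ := Fin m) (R := K))) Φ Φ' (fun a => ?_) (fun i => ?_)
    (fun i => ?_)
  · have h4 : Φ.comp (MvPowerSeries.C (σ := Fin m) (R := K)) = Φ'.comp (MvPowerSeries.C (σ := Fin m) (R := K)) := by
      refine sep_unique (κ := κ) (RingHom.ker (MvPowerSeries.constantCoeff (σ := Fin m) (R := K))) _ _ ?_ ?_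
      · refine IsLocalization.ringHom_ext (nonZeroDivisors (PowerSeries k)) ?_
        ext1 a
        change Φ (MvPowerSeries.C (algebraMap κ K (algebraMap (PowerSeries k) κ a))) =
          Φ' (MvPowerSeries.C (algebraMap κ K (algebraMap (PowerSeries k) κ a)))
        rw [← IsScalarTower.algebraMap_apply, ← iota_emb, h1]
      · ext1 a
        refine Ideal.Quotient.eq.2 ?_
        rw [RingHom.mem_ker, map_sub]
        change MvPowerSeries.constantCoeff (Φ (MvPowerSeries.C a)) - MvPowerSeries.constantCoeff (Φ' (MvPowerSeries.C a)) = 0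
        rw [h2, h3, sub_self]
    exact congrArg (fun F : K →+* MvPowerSeries (Fin m) K => F a) h4
  · rw [← iota_X_castSucc (k := k), h1]
  · rw [RingHom.mem_ker, h2, MvPowerSeries.constantCoeff_X, map_zero]

variable (κ) in
include κ in
theorem phi_exists (g : MvPowerSeries (Fin (m + 1)) k →+* MvPowerSeries (Fin (m + 1)) k) (τ : K →+* K)
    (hc : ∀ x, τ (algebraMap (PowerSeries k) K (res m k x)) = algebraMap (PowerSeries k) K (res m k (g x))) :
    ∃ Φ : MvPowerSeries (Fin m) K →+* MvPowerSeries (Fin m) K, (∀ x, Φ (iota m k K x) = iota m k K (g x)) ∧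
      ∀ y, MvPowerSeries.constantCoeff (Φ y) = τ (MvPowerSeries.constantCoeff y) := by
  have hac := ac_ker (σ := Fin m) (R := K)
  have hK : Function.Injective (algebraMap (PowerSeries k) K) := algMap_inj (κ := κ)
  obtain ⟨θ0, hθ0⟩ : ∃ θ0 : PowerSeries k →+* MvPowerSeries (Fin m) K, ∀ a, θ0 a = iota m k K (g (emb m k a)) :=
    ⟨(iota m k K).comp (g.comp (emb m k)), fun a => rfl⟩
  have hcc : ∀ a, MvPowerSeries.constantCoeff (θ0 a) = τ (algebraMap (PowerSeries k) K a) := by
    intro a
    rw [hθ0, constantCoeff_iota, ← hc, res_emb]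
  have hu : ∀ a : nonZeroDivisors (PowerSeries k), IsUnit (θ0 a) := by
    intro a
    rw [MvPowerSeries.isUnit_iff_constantCoeff, hcc, isUnit_iff_ne_zero]
    intro h
    rw [map_eq_zero_iff τ τ.injective, map_eq_zero_iff _ hK] at h
    exact nonZeroDivisors.ne_zero a.2 h
  obtain ⟨θ, hθ⟩ : ∃ θ : κ →+* MvPowerSeries (Fin m) K, ∀ a, θ (algebraMap (PowerSeries k) κ a) = θ0 a :=
    ⟨IsLocalization.lift hu, fun a => IsLocalization.lift_eq hu a⟩
  obtain ⟨l, hl1, hl2⟩ := sep_lift (κ := κ) (RingHom.ker (MvPowerSeries.constantCoeff (σ := Fin m) (R := K))) θ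
    ((Ideal.Quotient.mk _).comp ((MvPowerSeries.C (σ := Fin m) (R := K)).comp τ)) (by
      refine IsLocalization.ringHom_ext (nonZeroDivisors (PowerSeries k)) ?_
      ext1 a
      refine Ideal.Quotient.eq.2 ?_
      rw [RingHom.mem_ker, map_sub]
      change MvPowerSeries.constantCoeff (MvPowerSeries.C (τ (algebraMap κ K (algebraMap (PowerSeries k) κ a)))) -
        MvPowerSeries.constantCoeff (θ (algebraMap (PowerSeries k) κ a)) = 0
      rw [hθ, hcc, MvPowerSeries.constantCoeff_C, ← IsScalarTower.algebraMap_apply, sub_self])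
  have hl3 : ∀ a, MvPowerSeries.constantCoeff (l a) = τ a := by
    intro a
    have h1 := congrArg (fun F : K →+* _ => F a) hl2
    have h2 := Ideal.Quotient.eq.1 h1
    rw [RingHom.mem_ker, map_sub, sub_eq_zero] at h2
    rw [h2]
    exact MvPowerSeries.constantCoeff_C _
  have hl4 : ∀ a, l (algebraMap (PowerSeries k) K a) = iota m k K (g (emb m k a)) := by
    intro a
    rw [IsScalarTower.algebraMap_apply (PowerSeries k) κ K, ← hθ0, ← hθ]
    exact congrArg (fun F : κ →+* MvPowerSeries (Fin m) K => F (algebraMap (PowerSeries k) κ a)) hl1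
  have hb : ∀ i : Fin m, MvPowerSeries.constantCoeff (iota m k K (g (MvPowerSeries.X i.castSucc))) = 0 := by
    intro i
    rw [constantCoeff_iota, ← hc, res_X_castSucc, map_zero, map_zero]
  obtain ⟨Φ, hΦ1, hΦ2⟩ := ev_exists l (fun i : Fin m => iota m k K (g (MvPowerSeries.X i.castSucc))) hb
  refine ⟨Φ, ?_, ?_⟩
  · have h1 : Φ.comp (iota m k K) = (iota m k K).comp g := by
      refine R_hom_ext (RingHom.ker (MvPowerSeries.constantCoeff (σ := Fin m) (R := K))) _ _ (fun a => ?_) (fun i => ?_)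
        (fun i => ?_)
      · change Φ (iota m k K (emb m k a)) = iota m k K (g (emb m k a))
        rw [iota_emb, hΦ1, hl4]
      · change Φ (iota m k K (MvPowerSeries.X i.castSucc)) = iota m k K (g (MvPowerSeries.X i.castSucc))
        rw [iota_X_castSucc, hΦ2]
      · change Φ (iota m k K (MvPowerSeries.X i.castSucc)) ∈ _
        rw [iota_X_castSucc, hΦ2, RingHom.mem_ker]
        exact hb i
    intro x
    exact congrArg (fun F : MvPowerSeries (Fin (m + 1)) k →+* MvPowerSeries (Fin m) K => F x) h1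
  · have h1 : (MvPowerSeries.constantCoeff (σ := Fin m) (R := K)).comp Φ =
        τ.comp (MvPowerSeries.constantCoeff (σ := Fin m) (R := K)) := by
      refine mv_hom_ext (⊥ : Ideal K) _ _ (fun a => ?_) (fun i => ?_) (fun i => ?_)
      · change MvPowerSeries.constantCoeff (Φ (MvPowerSeries.C a)) = τ (MvPowerSeries.constantCoeff (MvPowerSeries.C a))
        rw [hΦ1, hl3, MvPowerSeries.constantCoeff_C]
      · change MvPowerSeries.constantCoeff (Φ (MvPowerSeries.X i)) = τ (MvPowerSeries.constantCoeff (MvPowerSeries.X i))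
        rw [hΦ2, hb, MvPowerSeries.constantCoeff_X, map_zero]
      · change MvPowerSeries.constantCoeff (Φ (MvPowerSeries.X i)) ∈ (⊥ : Ideal K)
        rw [hΦ2, hb]
        exact zero_mem _
    intro y
    exact congrArg (fun F : MvPowerSeries (Fin m) K →+* K => F y) h1

section group

/-- the group of compatible pairs `(g, τ)` -/
def PK (m : ℕ) (k K : Type*) [Field k] [Field K] [Algebra (PowerSeries k) K] :
    Subgroup ((MvPowerSeries (Fin (m + 1)) k ≃ₐ[k] MvPowerSeries (Fin (m + 1)) k) × (K ≃+* K)) where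
  carrier := {p | ∀ x, p.2 (algebraMap (PowerSeries k) K (res m k x)) = algebraMap (PowerSeries k) K (res m k (p.1 x))}
  mul_mem' := by
    intro p q hp hq x
    change p.2 (q.2 (algebraMap (PowerSeries k) K (res m k x))) = algebraMap (PowerSeries k) K (res m k (p.1 (q.1 x)))
    rw [hq x, hp]
  one_mem' := fun x => rfl
  inv_mem' := by
    intro p hp x
    change p.2.symm (algebraMap (PowerSeries k) K (res m k x)) = algebraMap (PowerSeries k) K (res m k (p.1.symm x))
    rw [RingEquiv.symm_apply_eq, hp, AlgEquiv.apply_symm_apply]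

omit [Algebra.IsSeparable κ K] [IsFractionRing (PowerSeries k) κ] [Algebra (PowerSeries k) κ] [Algebra κ K]
  [IsScalarTower (PowerSeries k) κ K] in
theorem mem_PK {p : (MvPowerSeries (Fin (m + 1)) k ≃ₐ[k] MvPowerSeries (Fin (m + 1)) k) × (K ≃+* K)} :
    p ∈ PK m k K ↔
      ∀ x, p.2 (algebraMap (PowerSeries k) K (res m k x)) = algebraMap (PowerSeries k) K (res m k (p.1 x)) := Iff.rfl

variable (κ)

private def phiF (p : PK m k K) : MvPowerSeries (Fin m) K →+* MvPowerSeries (Fin m) K :=
  (phi_exists κ (p.1.1 : MvPowerSeries (Fin (m + 1)) k →+* MvPowerSeries (Fin (m + 1)) k) (p.1.2 : K →+* K) p.2).choose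

private theorem phiF_iota (p : PK m k K) (x : MvPowerSeries (Fin (m + 1)) k) :
    phiF κ p (iota m k K x) = iota m k K (p.1.1 x) :=
  (phi_exists κ (p.1.1 : MvPowerSeries (Fin (m + 1)) k →+* MvPowerSeries (Fin (m + 1)) k)
    (p.1.2 : K →+* K) p.2).choose_spec.1 x

private theorem phiF_cc (p : PK m k K) (y : MvPowerSeries (Fin m) K) :
    MvPowerSeries.constantCoeff (phiF κ p y) = p.1.2 (MvPowerSeries.constantCoeff y) :=
  (phi_exists κ (p.1.1 : MvPowerSeries (Fin (m + 1)) k →+* MvPowerSeries (Fin (m + 1)) k)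
    (p.1.2 : K →+* K) p.2).choose_spec.2 y

private theorem phiF_mul (p q : PK m k K) : phiF κ (p * q) = (phiF κ p).comp (phiF κ q) := by
  refine phi_unique κ (k := k) (τ := ((p * q).1.2 : K →+* K)) (fun x => ?_) (fun y => ?_) (fun y => ?_)
  · rw [RingHom.comp_apply, phiF_iota, phiF_iota, phiF_iota]
    rfl
  · exact phiF_cc κ (p * q) y
  · rw [RingHom.comp_apply, phiF_cc, phiF_cc]
    rfl

private theorem phiF_one : phiF κ (1 : PK m k K) = RingHom.id _ := by
  refine phi_unique κ (k := k) (τ := RingHom.id K) (fun x => ?_) (fun y => ?_) (fun y => ?_)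
  · rw [phiF_iota]
    rfl
  · rw [phiF_cc]
    rfl
  · rfl

/-- the action of the compatible pairs on `K⟦v_1, .., v_m⟧` -/
def phiHom : PK m k K →* (MvPowerSeries (Fin m) K ≃+* MvPowerSeries (Fin m) K) where
  toFun p := RingEquiv.ofRingHom (phiF κ p) (phiF κ p⁻¹)
    (by rw [← phiF_mul, mul_inv_cancel, phiF_one]) (by rw [← phiF_mul, inv_mul_cancel, phiF_one])
  map_one' := by
    ext1 y
    change phiF κ 1 y = y
    rw [phiF_one]
    rfl
  map_mul' p q := by
    ext1 y
    change phiF κ (p * q) y = phiF κ p (phiF κ q y)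
    rw [phiF_mul]
    rfl

theorem phiHom_iota (p : PK m k K) (x : MvPowerSeries (Fin (m + 1)) k) :
    phiHom κ p (iota m k K x) = iota m k K (p.1.1 x) := phiF_iota κ p x

theorem phiHom_cc (p : PK m k K) (y : MvPowerSeries (Fin m) K) :
    MvPowerSeries.constantCoeff (phiHom κ p y) = p.1.2 (MvPowerSeries.constantCoeff y) := phiF_cc κ p y

theorem phiHom_unique (p : PK m k K) (Φ : MvPowerSeries (Fin m) K →+* MvPowerSeries (Fin m) K)
    (h1 : ∀ x, Φ (iota m k K x) = iota m k K (p.1.1 x))
    (h2 : ∀ y, MvPowerSeries.constantCoeff (Φ y) = p.1.2 (MvPowerSeries.constantCoeff y)) :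
    ∀ y, Φ y = phiHom κ p y := by
  intro y
  have h := phi_unique κ (Φ := Φ) (Φ' := (phiHom κ p : MvPowerSeries (Fin m) K →+* MvPowerSeries (Fin m) K))
    (τ := (p.1.2 : K →+* K)) (fun x => by rw [h1]; exact (phiHom_iota κ p x).symm) h2 (phiHom_cc κ p)
  rw [h]
  rfl

theorem phiHom_mem_oI (p : PK m k K) (s : ℕ) {y : MvPowerSeries (Fin m) K} (hy : y ∈ oI (Fin m) K s) :
    phiHom κ p y ∈ oI (Fin m) K s := by
  rw [← vI_pow] at hy ⊢
  have h1 : (vI (Fin m) K).map (phiHom κ p : MvPowerSeries (Fin m) K →+* MvPowerSeries (Fin m) K) ≤ vI (Fin m) K := by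
    rw [Ideal.map_le_iff_le_comap]
    intro z hz
    rw [vI_eq_ker, RingHom.mem_ker] at hz
    rw [Ideal.mem_comap, vI_eq_ker, RingHom.mem_ker]
    change MvPowerSeries.constantCoeff (phiHom κ p z) = 0
    rw [phiHom_cc, hz, map_zero]
  have h2 := Ideal.mem_map_of_mem (phiHom κ p : MvPowerSeries (Fin m) K →+* MvPowerSeries (Fin m) K) hy
  rw [Ideal.map_pow] at h2
  exact Ideal.pow_right_mono h1 s h2

theorem phiHom_mem_oI_iff (p : PK m k K) (s : ℕ) {y : MvPowerSeries (Fin m) K} :
    phiHom κ p y ∈ oI (Fin m) K s ↔ y ∈ oI (Fin m) K s := by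
  constructor
  · intro h
    have h1 := phiHom_mem_oI κ p⁻¹ s h
    have h2 : phiHom κ p⁻¹ (phiHom κ p y) = y := by
      have h3 : (phiHom κ (p⁻¹ * p)) y = y := by
        rw [inv_mul_cancel, map_one]
        rfl
      rwa [map_mul] at h3
    rwa [h2] at h1
  · exact phiHom_mem_oI κ p s

end group

section tau

omit [Algebra.IsSeparable κ K] [IsFractionRing (PowerSeries k) κ] [Algebra (PowerSeries k) κ] [Algebra κ K]
  [IsScalarTower (PowerSeries k) κ K] [Algebra (PowerSeries k) K] [Field κ] [Field K] [Field k]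

theorem inv_stable {R : Type*} [CommRing R] [IsNoetherianRing R] (g : R ≃+* R) (I : Ideal R) (hg : ∀ x ∈ I, g x ∈ I)
    (x : R) (hx : g x ∈ I) : x ∈ I := by
  have hn : ∀ (n : ℕ) (x : R), (g ^ (n + 1)) x = (g ^ n) (g x) := by
    intro n x
    rw [pow_succ]
    rfl
  have hmono : Monotone fun n : ℕ => I.comap ((g ^ n : R ≃+* R) : R →+* R) := by
    refine monotone_nat_of_le_succ fun n y hy => ?_
    rw [Ideal.mem_comap] at hy ⊢
    have h2 : (g ^ (n + 1)) y = g ((g ^ n) y) := by
      rw [pow_succ']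
      rfl
    change (g ^ (n + 1)) y ∈ I
    rw [h2]
    exact hg _ hy
  obtain ⟨N, hN⟩ := monotone_stabilizes_iff_noetherian.2 ‹IsNoetherianRing R› ⟨_, hmono⟩
  have h1 := hN (N + 1) (Nat.le_succ N)
  have h2 : (g ^ N).symm x ∈ I.comap ((g ^ (N + 1) : R ≃+* R) : R →+* R) := by
    rw [Ideal.mem_comap]
    change (g ^ (N + 1)) ((g ^ N).symm x) ∈ I
    rw [pow_succ']
    change g ((g ^ N) ((g ^ N).symm x)) ∈ I
    rwa [RingEquiv.apply_symm_apply]
  have h3 : (g ^ N).symm x ∈ I.comap ((g ^ N : R ≃+* R) : R →+* R) := by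
    change I.comap ((g ^ N : R ≃+* R) : R →+* R) = I.comap ((g ^ (N + 1) : R ≃+* R) : R →+* R) at h1
    rwa [h1]
  rw [Ideal.mem_comap] at h3
  change (g ^ N) ((g ^ N).symm x) ∈ I at h3
  rwa [RingEquiv.apply_symm_apply] at h3

variable {k : Type*} [Field k]

theorem res_eq_of {g : MvPowerSeries (Fin (m + 1)) k ≃ₐ[k] MvPowerSeries (Fin (m + 1)) k}
    (hg : ∀ x ∈ cI m k, g x ∈ cI m k) {x y : MvPowerSeries (Fin (m + 1)) k} (h : res m k x = res m k y) :
    res m k (g x) = res m k (g y) := by
  have h1 : x - y ∈ cI m k := by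
    rw [cI_eq_ker, RingHom.mem_ker, map_sub, h, sub_self]
  have h2 := hg _ h1
  rw [cI_eq_ker, RingHom.mem_ker, map_sub, map_sub, sub_eq_zero] at h2
  exact h2

theorem symm_stable {g : MvPowerSeries (Fin (m + 1)) k ≃ₐ[k] MvPowerSeries (Fin (m + 1)) k}
    (hg : ∀ x ∈ cI m k, g x ∈ cI m k) : ∀ x ∈ cI m k, g.symm x ∈ cI m k := by
  intro x hx
  refine inv_stable (g : MvPowerSeries (Fin (m + 1)) k ≃+* MvPowerSeries (Fin (m + 1)) k) (cI m k) hg _ ?_
  change g (g.symm x) ∈ cI m k
  rwa [AlgEquiv.apply_symm_apply]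

/-- the automorphism of `k⟦X⟧` induced by an automorphism which stabilises the ideal of the first variables -/
def gbar (g : MvPowerSeries (Fin (m + 1)) k ≃ₐ[k] MvPowerSeries (Fin (m + 1)) k)
    (hg : ∀ x ∈ cI m k, g x ∈ cI m k) : PowerSeries k ≃ₐ[k] PowerSeries k where
  toFun a := res m k (g (emb m k a))
  invFun a := res m k (g.symm (emb m k a))
  left_inv a := by
    have h1 : res m k (emb m k (res m k (g (emb m k a)))) = res m k (g (emb m k a)) := res_emb _
    have h2 := res_eq_of (symm_stable hg) h1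
    change res m k (g.symm (emb m k (res m k (g (emb m k a))))) = a
    rw [h2, AlgEquiv.symm_apply_apply, res_emb]
  right_inv a := by
    have h1 : res m k (emb m k (res m k (g.symm (emb m k a)))) = res m k (g.symm (emb m k a)) := res_emb _
    have h2 := res_eq_of hg h1
    change res m k (g (emb m k (res m k (g.symm (emb m k a))))) = a
    rw [h2, AlgEquiv.apply_symm_apply, res_emb]
  map_mul' a b := by rw [map_mul, map_mul, map_mul]
  map_add' a b := by rw [map_add, map_add, map_add]
  commutes' a := by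
    have h1 : algebraMap k (PowerSeries k) a = PowerSeries.C a := rfl
    rw [h1, emb_C]
    have h2 : (MvPowerSeries.C a : MvPowerSeries (Fin (m + 1)) k) = algebraMap k _ a := rfl
    rw [h2, AlgEquiv.commutes, ← h2, res_C]

theorem gbar_res (g : MvPowerSeries (Fin (m + 1)) k ≃ₐ[k] MvPowerSeries (Fin (m + 1)) k)
    (hg : ∀ x ∈ cI m k, g x ∈ cI m k) (x : MvPowerSeries (Fin (m + 1)) k) :
    gbar g hg (res m k x) = res m k (g x) := by
  change res m k (g (emb m k (res m k x))) = res m k (g x)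
  exact res_eq_of hg (res_emb _)

end tau

section sepclosure

private theorem lift_sep {F L M : Type*} [Field F] [Field L] [Field M] [Algebra F L] [Algebra.IsSeparable F L]
    [IsSepClosed M] (j : F →+* M) : ∃ σ : L →+* M, ∀ a, σ (algebraMap F L a) = j a := by
  let _ : Algebra F M := j.toAlgebra
  exact ⟨(IsSepClosed.lift : L →ₐ[F] M), fun a => AlgHom.commutes _ a⟩

variable (κ) [IsSepClosed K]

omit [Algebra (PowerSeries k) K] [IsScalarTower (PowerSeries k) κ K] in
private theorem exists_tau_hom (gb : PowerSeries k ≃+* PowerSeries k) :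
    ∃ σ : K →+* K, ∀ a, σ (algebraMap κ K (algebraMap (PowerSeries k) κ a)) =
      algebraMap κ K (algebraMap (PowerSeries k) κ (gb a)) := by
  obtain ⟨gκ, hgκ⟩ : ∃ gκ : κ →+* κ, ∀ a, gκ (algebraMap (PowerSeries k) κ a) = algebraMap (PowerSeries k) κ (gb a) :=
    ⟨IsFractionRing.lift (A := PowerSeries k) (g := (algebraMap (PowerSeries k) κ).comp (gb : PowerSeries k →+* PowerSeries k))
      ((IsFractionRing.injective (PowerSeries k) κ).comp gb.injective), fun a => by
        rw [IsFractionRing.lift_algebraMap]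
        rfl⟩
  obtain ⟨σ, hσ⟩ := lift_sep (L := K) ((algebraMap κ K).comp gκ)
  exact ⟨σ, fun a => by rw [hσ, RingHom.comp_apply, hgκ]⟩

include κ in
/-- an automorphism of `k⟦X⟧` extends to the separable closure of its fraction field -/
theorem exists_tau (gb : PowerSeries k ≃+* PowerSeries k) :
    ∃ τ : K ≃+* K, ∀ a, τ (algebraMap (PowerSeries k) K a) = algebraMap (PowerSeries k) K (gb a) := by
  obtain ⟨σ, hσ⟩ := exists_tau_hom (K := K) κ gb
  obtain ⟨σ', hσ'⟩ := exists_tau_hom (K := K) κ gb.symm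
  have h1 : (σ.comp σ').comp (algebraMap κ K) = algebraMap κ K := by
    refine IsLocalization.ringHom_ext (nonZeroDivisors (PowerSeries k)) ?_
    ext1 a
    change σ (σ' (algebraMap κ K (algebraMap (PowerSeries k) κ a))) = algebraMap κ K (algebraMap (PowerSeries k) κ a)
    rw [hσ', hσ, RingEquiv.apply_symm_apply]
  let A : K →ₐ[κ] K := { σ.comp σ' with commutes' := fun r => congrArg (fun F : κ →+* K => F r) h1 }
  have hA : Function.Bijective A := Algebra.IsAlgebraic.algHom_bijective A
  have hs : Function.Surjective σ := by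
    intro y
    obtain ⟨z, hz⟩ := hA.2 y
    exact ⟨σ' z, hz⟩
  have hb : Function.Bijective σ := ⟨σ.injective, hs⟩
  refine ⟨RingEquiv.ofBijective σ hb, fun a => ?_⟩
  change σ (algebraMap (PowerSeries k) K a) = algebraMap (PowerSeries k) K (gb a)
  rw [IsScalarTower.algebraMap_apply (PowerSeries k) κ K, IsScalarTower.algebraMap_apply (PowerSeries k) κ K]
  exact hσ a

include κ in
/-- every automorphism which stabilises the ideal of the first variables is the first component of a compatible pair -/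
theorem exists_pair (g : MvPowerSeries (Fin (m + 1)) k ≃ₐ[k] MvPowerSeries (Fin (m + 1)) k)
    (hg : ∀ x ∈ cI m k, g x ∈ cI m k) : ∃ τ : K ≃+* K, (g, τ) ∈ PK m k K := by
  obtain ⟨τ, hτ⟩ := exists_tau (K := K) κ (gbar g hg : PowerSeries k ≃+* PowerSeries k)
  refine ⟨τ, fun x => ?_⟩
  change τ (algebraMap (PowerSeries k) K (res m k x)) = algebraMap (PowerSeries k) K (res m k (g x))
  rw [hτ]
  congr 1
  exact gbar_res g hg x

end sepclosure

end Pool.Agent.H84.CA
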