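import Pool.Agent.H13.CA.Inv
import Pool.Agent.H13.CA.Mon
import Pool.Agent.H84.CA.Phi
import Pool.Agent.H84.CA.Big
import Pool.Agent.H84.CA.Hens

/-!
# H84 CA C3: the pairs `(a, τ)` with `τ(β) ∘ f_a = β` (CH-ALL)
-/

set_option autoImplicit false

open scoped Classical

noncomputable section

namespace Pool.Agent.H84.CA

open MvPowerSeries Pool.Agent.H13.CA

section line

variable {k : Type*} [Field k] {p : ℕ} {s : ℕ} {F : FormalGroup (MvPowerSeries (Fin (s + 1)) k)}
  {π : MvPowerSeries (Fin (s + 1)) k →ₐ[k] PowerSeries k}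

theorem line2 (hF : IsLT k p (s + 1) F) (hπ : IsProj k s π) (i : ℕ) (hi : i < p ^ (s + 1)) :
    PowerSeries.coeff i (mulSer (F.map (π : MvPowerSeries (Fin (s + 1)) k →+* PowerSeries k)) p) = 0 := by
  rw [mulSer_map, PowerSeries.coeff_map]
  exact (hπ.ker _).2 (hF.low s (Nat.le_succ s) i hi)

theorem line3 (hF : IsLT k p (s + 1) F) (hπ : IsProj k s π) :
    PowerSeries.coeff (p ^ (s + 1)) (mulSer (F.map (π : MvPowerSeries (Fin (s + 1)) k →+* PowerSeries k)) p) =
      PowerSeries.X := by
  rw [mulSer_map, PowerSeries.coeff_map]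
  have h1 := (hπ.ker _).2 (hF.mid (Fin.last s))
  rw [map_sub, hπ.high, sub_eq_zero] at h1
  exact h1

theorem line4 (hF : IsLT k p (s + 1) F) (hπ : IsProj k s π) (i : ℕ) (hi : i < p ^ (s + 1 + 1)) :
    (PowerSeries.X : PowerSeries k) ∣
      PowerSeries.coeff i (mulSer (F.map (π : MvPowerSeries (Fin (s + 1)) k →+* PowerSeries k)) p) := by
  rw [mulSer_map, PowerSeries.coeff_map]
  have h1 := hF.low (s + 1) le_rfl i hi
  have h2 : Istd k (s + 1) (s + 1) ≤
      (Ideal.span {(PowerSeries.X : PowerSeries k)}).comap (π : MvPowerSeries (Fin (s + 1)) k →+* PowerSeries k) := by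
    rw [Istd, Ideal.span_le]
    rintro _ ⟨l, _, rfl⟩
    change π (X l) ∈ Ideal.span {(PowerSeries.X : PowerSeries k)}
    refine Fin.lastCases ?_ (fun l => ?_) l
    · rw [hπ.high]
      exact Ideal.subset_span rfl
    · rw [hπ.low]
      exact zero_mem _
  exact Ideal.mem_span_singleton.1 (h2 h1)

theorem line5 (hF : IsLT k p (s + 1) F) (π : MvPowerSeries (Fin (s + 1)) k →ₐ[k] PowerSeries k) :
    IsUnit (PowerSeries.coeff (p ^ (s + 1 + 1))
      (mulSer (F.map (π : MvPowerSeries (Fin (s + 1)) k →+* PowerSeries k)) p)) := by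
  rw [mulSer_map, PowerSeries.coeff_map]
  exact hF.top.map _

end line

section tau

variable {k : Type*} [Field k] (p : ℕ) [Fact p.Prime] [CharP k p]
    {s : ℕ} {F : FormalGroup (MvPowerSeries (Fin (s + 1)) k)}
    {π : MvPowerSeries (Fin (s + 1)) k →ₐ[k] PowerSeries k}
    (K : Type*) {L : Type*} [Field K] [Field L] [Algebra k L]
    [Algebra (PowerSeries k) K] [IsFractionRing (PowerSeries k) K]
    [Algebra K L] [Algebra (PowerSeries k) L]
    [IsScalarTower k (PowerSeries k) L]
    [IsScalarTower (PowerSeries k) K L] [Algebra.IsSeparable K L] [IsSepClosed L]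

include K in
/-- every lifting has a compatible automorphism of `L` -/
theorem tau_exists (hF : IsLT k p (s + 1) F) (hπ : IsProj k s π) (a : Lift k F) :
    ∃ τ : L ≃ₐ[k] L, ∀ f, τ (algebraMap (PowerSeries k) L (π f)) = algebraMap (PowerSeries k) L (π (a.g f)) := by
  have hst : ∀ x ∈ cI s k, a.g x ∈ cI s k := by
    intro x hx
    rw [← Istd_eq_cI] at hx ⊢
    rw [← Istd_stable p hF a s]
    exact Ideal.mem_map_of_mem _ hx
  obtain ⟨τ, hτ⟩ := exists_pair (K := L) K a.g hst
  have hτ' : ∀ f, τ (algebraMap (PowerSeries k) L (π f)) = algebraMap (PowerSeries k) L (π (a.g f)) := by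
    intro f
    rw [eq_resA hπ]
    exact hτ f
  refine ⟨AlgEquiv.ofRingEquiv (f := τ) (fun r => ?_), hτ'⟩
  have h1 : algebraMap k L r = algebraMap (PowerSeries k) L (π (algebraMap k _ r)) := by
    rw [AlgHom.commutes, ← IsScalarTower.algebraMap_apply]
  rw [h1, hτ', AlgEquiv.commutes]

end tau

section pair

variable {k : Type*} [Field k] [IsAlgClosed k] (p : ℕ) [Fact p.Prime] [CharP k p]
    {s : ℕ} {F : FormalGroup (MvPowerSeries (Fin (s + 1)) k)}
    {π : MvPowerSeries (Fin (s + 1)) k →ₐ[k] PowerSeries k}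
    (K : Type*) {L : Type*} [Field K] [Field L] [Algebra k K] [Algebra k L]
    [Algebra (PowerSeries k) K] [IsFractionRing (PowerSeries k) K]
    [Algebra K L] [Algebra (PowerSeries k) L]
    [IsScalarTower k (PowerSeries k) K] [IsScalarTower k K L] [IsScalarTower k (PowerSeries k) L]
    [IsScalarTower (PowerSeries k) K L] [IsSepClosure K L]

include K in
/-- C3: the pair with `τ(β) ∘ f_a = β` -/
theorem pair_exists (hF : IsLT k p (s + 1) F) (hπ : IsProj k s π) {Γ : FormalGroup k} (hΓ : Γ.IsComm)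
    (hΓ' : mulSer Γ p = PowerSeries.X ^ p ^ (s + 1)) {β : PowerSeries L}
    (hβ : IsHom (F.map ((algebraMap (PowerSeries k) L).comp (π : MvPowerSeries (Fin (s + 1)) k →+* PowerSeries k)))
      (Γ.map (algebraMap k L)) β)
    (hu : IsUnit (PowerSeries.coeff 1 β)) (a : Lift k F) :
    ∃ τ : L ≃ₐ[k] L, (∀ f, τ (algebraMap (PowerSeries k) L (π f)) = algebraMap (PowerSeries k) L (π (a.g f))) ∧
      PowerSeries.subst (PowerSeries.map ((algebraMap (PowerSeries k) L).comp
        (π : MvPowerSeries (Fin (s + 1)) k →+* PowerSeries k)) a.f) (PowerSeries.map (τ : L →+* L) β) = β := by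
  have hcl : IsSepClosed L := IsSepClosure.sep_closed K
  have hsep : Algebra.IsSeparable K L := IsSepClosure.separable
  have hLp : CharP L p := charP_of_injective_algebraMap (algebraMap k L).injective p
  obtain ⟨τ, hτ⟩ := tau_exists (L := L) p K hF hπ a
  set ρ : MvPowerSeries (Fin (s + 1)) k →+* L := (algebraMap (PowerSeries k) L).comp
    (π : MvPowerSeries (Fin (s + 1)) k →+* PowerSeries k) with hρ
  set f0 : PowerSeries L := PowerSeries.map ρ a.f with hf0
  -- `f0 : G0 → τ G0`
  have e1 : (F.map (a.g : MvPowerSeries (Fin (s + 1)) k →+* MvPowerSeries (Fin (s + 1)) k)).map ρ =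
      (F.map ρ).map (τ : L →+* L) := by
    rw [fmap_map, fmap_map]
    congr 1
    ext x
    exact (hτ x).symm
  have hf0h : IsHom (F.map ρ) ((F.map ρ).map (τ : L →+* L)) f0 := by
    rw [← e1]
    exact a.hom.map ρ
  have e2 : (Γ.map (algebraMap k L)).map (τ : L →+* L) = Γ.map (algebraMap k L) := by
    rw [fmap_map]
    congr 1
    ext x
    exact τ.commutes x
  have hτβ : IsHom ((F.map ρ).map (τ : L →+* L)) (Γ.map (algebraMap k L)) (PowerSeries.map (τ : L →+* L) β) := by
    have h1 := hβ.map (τ : L →+* L)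
    rwa [e2] at h1
  have hE := hf0h.comp hτβ
  obtain ⟨β', hβ', hl, hr⟩ := hβ.inv hu
  have hη := hβ'.comp hE
  obtain ⟨θ0, hθ0, hθ0', -⟩ := hom_const (L := L) p (Nat.succ_pos s) hΓ' hΓ' hη
  -- the linear coefficient of `θ0` is a unit
  have hu0 : IsUnit (PowerSeries.coeff 1 θ0) := by
    have h1 : IsUnit (PowerSeries.coeff 1 (PowerSeries.map (algebraMap k L) θ0)) := by
      rw [hθ0', coeff_one_subst hβ'.1 hE.1, coeff_one_subst hf0h.1 hτβ.1]
      have h2 : IsUnit (PowerSeries.coeff 1 β') := by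
        have h3 := congrArg (PowerSeries.coeff 1) hl
        rw [coeff_one_subst hβ.1 hβ'.1, PowerSeries.coeff_one_X, mul_comm] at h3
        exact IsUnit.of_mul_eq_one _ h3
      refine h2.mul (IsUnit.mul ?_ ?_)
      · rw [hf0, PowerSeries.coeff_map]
        exact a.isUnit.map ρ
      · rw [PowerSeries.coeff_map]
        exact hu.map _
    rw [PowerSeries.coeff_map, isUnit_iff_ne_zero] at h1
    rw [isUnit_iff_ne_zero]
    intro h
    rw [h, map_zero] at h1
    exact h1 rfl
  obtain ⟨θ, hθ, huθ, hθl, hθr⟩ := hθ0.inv' hu0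
  -- monodromy
  have hβ2 : IsHom ((F.map (π : MvPowerSeries (Fin (s + 1)) k →+* PowerSeries k)).map (algebraMap (PowerSeries k) L))
      (Γ.map (algebraMap k L)) β := by
    rw [fmap_map]
    exact hβ
  obtain ⟨σ, hσ⟩ := mon p (Nat.succ_pos s) (IsComm.map' hF.comm _) (line2 hF hπ) (line3 hF hπ) (line4 hF hπ)
    (line5 hF π) (K := K) hΓ hΓ' hβ2 hu hθ huθ
  refine ⟨(σ.restrictScalars k).trans τ, fun f => ?_, ?_⟩
  · have h1 : σ (algebraMap (PowerSeries k) L (π f)) = algebraMap (PowerSeries k) L (π f) := by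
      rw [IsScalarTower.algebraMap_apply (PowerSeries k) K L, AlgEquiv.commutes]
    change τ (σ (algebraMap (PowerSeries k) L (π f))) = _
    rw [h1, hτ]
  · have h1 : PowerSeries.map (((σ.restrictScalars k).trans τ : L ≃ₐ[k] L) : L →+* L) β =
        PowerSeries.map (τ : L →+* L) (PowerSeries.map (σ : L →+* L) β) := by
      rw [map_map']
      rfl
    have h2 : PowerSeries.map (τ : L →+* L) (PowerSeries.map (algebraMap k L) θ) = PowerSeries.map (algebraMap k L) θ := by
      have h21 : (τ : L →+* L).comp (algebraMap k L) = algebraMap k L := by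
        ext x
        exact τ.commutes x
      rw [map_map', h21]
    have hθL : PowerSeries.constantCoeff (PowerSeries.map (algebraMap k L) θ) = 0 := map_hs hθ.1 _
    have hηc := hη.1
    have h3 : PowerSeries.subst β (PowerSeries.subst β' (PowerSeries.subst f0 (PowerSeries.map (τ : L →+* L) β))) =
        PowerSeries.subst f0 (PowerSeries.map (τ : L →+* L) β) := by
      rw [subst_subst' hβ'.1 hβ.1, hl]
      exact PowerSeries.X_subst _
    rw [h1, hσ, map_subst' (hs_zero hβ.1), h2, subst_subst' hτβ.1 hf0h.1, ← h3, ← subst_subst' hηc hβ.1, ← hθ0',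
      ← map_subst' (hs_zero hθ0.1), hθl, map_X', PowerSeries.subst_X (hs_zero hβ.1)]

end pair

end Pool.Agent.H84.CA
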