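import Pool.Agent.H13.CA.Inv

/-!
# H84 CA C5: the fixed field of the pairs is `k` (CH-ALL)
-/

set_option autoImplicit false

open scoped Classical

noncomputable section

namespace Pool.Agent.H84.CA

open MvPowerSeries Pool.Agent.H13.CA

/-- an element of `L` which is fixed by a compatible `τ` for every `a ∈ V` is a constant -/
theorem fix_const {k : Type*} [Field k] [IsAlgClosed k] (p : ℕ) [Fact p.Prime] [CharP k p]
    {s : ℕ} {F : FormalGroup (MvPowerSeries (Fin (s + 1)) k)} (hF : IsLT k p (s + 1) F)
    {π : MvPowerSeries (Fin (s + 1)) k →ₐ[k] PowerSeries k} (hπ : IsProj k s π)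
    (V : Subgroup (Lift k F)) (hV : Ample V)
    {K L : Type*} [Field K] [Field L] [Algebra k K] [Algebra k L]
    [Algebra (PowerSeries k) K] [IsFractionRing (PowerSeries k) K]
    [Algebra K L] [Algebra (PowerSeries k) L]
    [IsScalarTower k (PowerSeries k) K] [IsScalarTower k K L]
    [IsScalarTower (PowerSeries k) K L] [Algebra.IsAlgebraic K L]
    (x : L) (hx : ∀ a ∈ V, ∃ τ : L ≃ₐ[k] L, (∀ f, τ (algebraMap (PowerSeries k) L (π f)) =
      algebraMap (PowerSeries k) L (π (a.g f))) ∧ τ x = x) : ∃ c : k, algebraMap k L c = x := by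
  have hKinj : Function.Injective (algebraMap (PowerSeries k) K) := IsFractionRing.injective (PowerSeries k) K
  have hLinj : Function.Injective (algebraMap (PowerSeries k) L) := by
    rw [IsScalarTower.algebraMap_eq (PowerSeries k) K L]
    exact (algebraMap K L).injective.comp hKinj
  have hint : IsIntegral K x := Algebra.IsIntegral.isIntegral x
  -- every coefficient of the minimal polynomial is fixed
  have hfix : ∀ a ∈ V, ∃ τ : L ≃ₐ[k] L, (∀ f, τ (algebraMap (PowerSeries k) L (π f)) =
      algebraMap (PowerSeries k) L (π (a.g f))) ∧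
      ∀ i, τ (algebraMap K L ((minpoly K x).coeff i)) = algebraMap K L ((minpoly K x).coeff i) := by
    intro a ha
    obtain ⟨τ, h1, h2⟩ := hx a ha
    refine ⟨τ, h1, ?_⟩
    obtain ⟨g, hg⟩ : ∃ g : K →+* K, ∀ z, algebraMap K L (g z) = τ (algebraMap K L z) := by
      have hr : ∀ z : K, ∃ z' : K, algebraMap K L z' = τ (algebraMap K L z) := by
        intro z
        obtain ⟨u, v, hv, rfl⟩ := IsFractionRing.div_surjective (A := PowerSeries k) z
        obtain ⟨u', rfl⟩ := hπ.surj u
        obtain ⟨v', rfl⟩ := hπ.surj v
        refine ⟨algebraMap (PowerSeries k) K (π (a.g u')) / algebraMap (PowerSeries k) K (π (a.g v')), ?_⟩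
        rw [map_div₀, map_div₀, map_div₀, ← IsScalarTower.algebraMap_apply, ← IsScalarTower.algebraMap_apply,
          ← IsScalarTower.algebraMap_apply, ← IsScalarTower.algebraMap_apply, h1, h1]
      choose g hg using hr
      have hinj := (algebraMap K L).injective
      refine ⟨{ toFun := g, map_one' := ?_, map_mul' := ?_, map_zero' := ?_, map_add' := ?_ }, hg⟩
      · apply hinj
        rw [hg, map_one, map_one]
      · intro y z
        apply hinj
        rw [hg, map_mul, map_mul, map_mul, hg, hg]
      · apply hinj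
        rw [hg, map_zero, map_zero]
      · intro y z
        apply hinj
        rw [hg, map_add, map_add, map_add, hg, hg]
    have hmon := minpoly.monic hint
    have h3 : Polynomial.aeval x ((minpoly K x).map g) = 0 := by
      rw [Polynomial.aeval_def, Polynomial.eval₂_map]
      have h4 : (algebraMap K L).comp g = (τ : L →+* L).comp (algebraMap K L) := by
        ext z
        exact hg z
      rw [h4]
      have h5 := Polynomial.hom_eval₂ (minpoly K x) (algebraMap K L) (τ : L →+* L) x
      have h6 : (τ : L →+* L) x = τ x := rfl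
      rw [h6, h2] at h5
      rw [← h5, ← Polynomial.aeval_def, minpoly.aeval, map_zero]
    have h7 : (minpoly K x) = (minpoly K x).map g := by
      refine (Polynomial.eq_of_monic_of_dvd_of_natDegree_le hmon (hmon.map g) (minpoly.dvd K x h3) ?_).symm
      rw [hmon.natDegree_map g]
    intro i
    rw [← hg]
    congr 1
    conv_rhs => rw [h7]
    rw [Polynomial.coeff_map]
  -- hence constant
  have hconst : ∀ i, ∃ c : k, algebraMap k K c = (minpoly K x).coeff i := by
    intro i
    obtain ⟨u, v, hv, huv⟩ := IsFractionRing.div_surjective (A := PowerSeries k) ((minpoly K x).coeff i)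
    obtain ⟨u', rfl⟩ := hπ.surj u
    obtain ⟨v', rfl⟩ := hπ.surj v
    have hv0 : π v' ≠ 0 := nonZeroDivisors.ne_zero hv
    obtain ⟨c, hc⟩ := inv_const p hF hπ V hV u' v' hv0 (by
      intro a ha
      obtain ⟨τ, h1, h2⟩ := hfix a ha
      have h3 := h2 i
      rw [← huv, map_div₀, ← IsScalarTower.algebraMap_apply, ← IsScalarTower.algebraMap_apply, map_div₀, h1, h1] at h3
      have hn1 : algebraMap (PowerSeries k) L (π v') ≠ 0 := by
        rw [Ne, map_eq_zero_iff _ hLinj]
        exact hv0
      have hn2 : algebraMap (PowerSeries k) L (π (a.g v')) ≠ 0 := by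
        rw [← h1, Ne, map_eq_zero_iff τ τ.injective]
        exact hn1
      rw [div_eq_div_iff hn2 hn1] at h3
      apply hLinj
      rw [map_mul, map_mul]
      exact h3)
    refine ⟨c, ?_⟩
    rw [← huv, hc]
    have hn3 : algebraMap (PowerSeries k) K (π v') ≠ 0 := by
      rw [Ne, map_eq_zero_iff _ hKinj]
      exact hv0
    rw [eq_div_iff hn3, Algebra.smul_def, map_mul, ← IsScalarTower.algebraMap_apply]
  choose c hc using hconst
  have hint2 : IsIntegral k x := by
    have hl : minpoly K x ∈ Polynomial.lifts (algebraMap k K) := by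
      rw [Polynomial.lifts_iff_coeff_lifts]
      intro i
      exact ⟨c i, hc i⟩
    obtain ⟨q, hq1, _, hq3⟩ := Polynomial.lifts_and_degree_eq_and_monic hl (minpoly.monic hint)
    refine ⟨q, hq3, ?_⟩
    rw [IsScalarTower.algebraMap_eq k K L, ← Polynomial.eval₂_map, hq1, ← Polynomial.aeval_def, minpoly.aeval]
  have h8 : (minpoly k x).degree = 1 := IsAlgClosed.degree_eq_one_of_irreducible k (minpoly.irreducible hint2)
  exact minpoly.mem_range_of_degree_eq_one k x h8

end Pool.Agent.H84.CA
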