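import Pool.Agent.H84.CA.Ac
import Pool.Agent.H13.CA.Defs

/-!
# H84 CA IOTA: `R_(m+2) = k⟦v_1, .., v_m, u⟧ → K⟦v_1, .., v_m⟧` (CH-ALL)

`sl : MvPowerSeries (Fin (m + 1)) k ≃+* MvPowerSeries (Fin m) k⟦X⟧` (the last variable goes into the coefficients),
`iota = map (algebraMap k⟦X⟧ K) ∘ sl`, `res = constantCoeff ∘ sl : MvPowerSeries (Fin (m + 1)) k →+* k⟦X⟧`, `emb = sl⁻¹ ∘ C`.
-/

set_option autoImplicit false

open scoped Classical

noncomputable section

namespace Pool.Agent.H84.CA

section sn

variable {m : ℕ}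

/-- append an exponent for the last variable -/
def sn (n : Fin m →₀ ℕ) (j : ℕ) : Fin (m + 1) →₀ ℕ :=
  Finsupp.equivFunOnFinite.symm (Fin.snoc (α := fun _ => ℕ) (fun i => n i) j)

/-- forget the last exponent -/
def ini (a : Fin (m + 1) →₀ ℕ) : Fin m →₀ ℕ :=
  Finsupp.equivFunOnFinite.symm fun i => a i.castSucc

@[simp] theorem sn_castSucc (n : Fin m →₀ ℕ) (j : ℕ) (i : Fin m) : sn n j i.castSucc = n i := by
  simp [sn]

@[simp] theorem sn_last (n : Fin m →₀ ℕ) (j : ℕ) : sn n j (Fin.last m) = j := by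
  simp [sn]

@[simp] theorem ini_apply (a : Fin (m + 1) →₀ ℕ) (i : Fin m) : ini a i = a i.castSucc := rfl

theorem fin_ext {a b : Fin (m + 1) →₀ ℕ} (h : ∀ i : Fin m, a i.castSucc = b i.castSucc)
    (hl : a (Fin.last m) = b (Fin.last m)) : a = b := by
  ext i
  refine Fin.lastCases hl (fun i => h i) i

@[simp] theorem ini_sn (n : Fin m →₀ ℕ) (j : ℕ) : ini (sn n j) = n := by
  ext i
  simp

@[simp] theorem sn_ini (a : Fin (m + 1) →₀ ℕ) : sn (ini a) (a (Fin.last m)) = a :=
  fin_ext (fun i => by simp) (by simp)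

theorem sn_inj {n n' : Fin m →₀ ℕ} {j j' : ℕ} : sn n j = sn n' j' ↔ n = n' ∧ j = j' := by
  constructor
  · intro h
    refine ⟨?_, ?_⟩
    · rw [← ini_sn n j, h, ini_sn]
    · rw [← sn_last n j, h, sn_last]
  · rintro ⟨rfl, rfl⟩
    rfl

theorem sn_add (n n' : Fin m →₀ ℕ) (j j' : ℕ) : sn n j + sn n' j' = sn (n + n') (j + j') :=
  fin_ext (fun i => by simp) (by simp)

@[simp] theorem sn_zero : sn (0 : Fin m →₀ ℕ) 0 = 0 := fin_ext (fun i => by simp) (by simp)

theorem sn_single_castSucc (i : Fin m) (c : ℕ) : sn (Finsupp.single i c) 0 = Finsupp.single i.castSucc c := by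
  refine fin_ext (fun l => ?_) ?_
  · rw [sn_castSucc, Finsupp.single_apply, Finsupp.single_apply]
    simp [Fin.castSucc_inj]
  · rw [sn_last, Finsupp.single_apply, if_neg (Fin.castSucc_ne_last i)]

theorem sn_single_last (c : ℕ) : sn (0 : Fin m →₀ ℕ) c = Finsupp.single (Fin.last m) c := by
  refine fin_ext (fun l => ?_) ?_
  · rw [sn_castSucc, Finsupp.single_apply, if_neg (Fin.castSucc_ne_last l).symm]
    rfl
  · rw [sn_last, Finsupp.single_apply, if_pos rfl]

end sn

section sl

variable (m : ℕ) (k : Type*) [CommRing k]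

private def slF (x : MvPowerSeries (Fin (m + 1)) k) : MvPowerSeries (Fin m) (PowerSeries k) :=
  fun n => PowerSeries.mk fun j => MvPowerSeries.coeff (sn n j) x

private theorem coeff_slF (x : MvPowerSeries (Fin (m + 1)) k) (n : Fin m →₀ ℕ) (j : ℕ) :
    PowerSeries.coeff j (MvPowerSeries.coeff n (slF m k x)) = MvPowerSeries.coeff (sn n j) x := by
  have h : MvPowerSeries.coeff n (slF m k x) = PowerSeries.mk fun j => MvPowerSeries.coeff (sn n j) x := rfl
  rw [h, PowerSeries.coeff_mk]

private def slG (y : MvPowerSeries (Fin m) (PowerSeries k)) : MvPowerSeries (Fin (m + 1)) k :=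
  fun a => PowerSeries.coeff (a (Fin.last m)) (MvPowerSeries.coeff (ini a) y)

private theorem coeff_slG (y : MvPowerSeries (Fin m) (PowerSeries k)) (a : Fin (m + 1) →₀ ℕ) :
    MvPowerSeries.coeff a (slG m k y) = PowerSeries.coeff (a (Fin.last m)) (MvPowerSeries.coeff (ini a) y) :=
  rfl

private theorem slF_mul (x y : MvPowerSeries (Fin (m + 1)) k) : slF m k (x * y) = slF m k x * slF m k y := by
  ext n j
  rw [coeff_slF, MvPowerSeries.coeff_mul, MvPowerSeries.coeff_mul, map_sum]
  simp_rw [PowerSeries.coeff_mul, coeff_slF]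
  rw [Finset.sum_sigma']
  refine Finset.sum_bij' (fun p _ => ⟨(ini p.1, ini p.2), (p.1 (Fin.last m), p.2 (Fin.last m))⟩)
    (fun q _ => (sn q.1.1 q.2.1, sn q.1.2 q.2.2)) ?_ ?_ ?_ ?_ ?_
  · intro p hp
    have h := Finset.HasAntidiagonal.mem_antidiagonal.1 hp
    rw [Finset.mem_sigma]
    refine ⟨Finset.HasAntidiagonal.mem_antidiagonal.2 ?_, Finset.HasAntidiagonal.mem_antidiagonal.2 ?_⟩
    · ext i
      have h1 := congrArg (fun a : Fin (m + 1) →₀ ℕ => a i.castSucc) h
      simpa using h1
    · have h1 := congrArg (fun a : Fin (m + 1) →₀ ℕ => a (Fin.last m)) h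
      simpa using h1
  · intro q hq
    rw [Finset.mem_sigma] at hq
    have h1 := Finset.HasAntidiagonal.mem_antidiagonal.1 hq.1
    have h2 := Finset.HasAntidiagonal.mem_antidiagonal.1 hq.2
    refine Finset.HasAntidiagonal.mem_antidiagonal.2 ?_
    simp only [sn_add]
    rw [h1, h2]
  · intro p _
    simp
  · intro q _
    simp
  · intro p _
    simp

/-- the last variable goes into the coefficients -/
def sl : MvPowerSeries (Fin (m + 1)) k ≃+* MvPowerSeries (Fin m) (PowerSeries k) where
  toFun := slF m k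
  invFun := slG m k
  left_inv x := by
    ext a
    rw [coeff_slG, coeff_slF, sn_ini]
  right_inv y := by
    ext n j
    rw [coeff_slF, coeff_slG, ini_sn, sn_last]
  map_mul' := slF_mul m k
  map_add' x y := by
    ext n j
    rw [map_add, map_add, coeff_slF, coeff_slF, coeff_slF, map_add]

variable {m k}

theorem coeff_coeff_sl (x : MvPowerSeries (Fin (m + 1)) k) (n : Fin m →₀ ℕ) (j : ℕ) :
    PowerSeries.coeff j (MvPowerSeries.coeff n (sl m k x)) = MvPowerSeries.coeff (sn n j) x :=
  coeff_slF m k x n j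

@[simp] theorem sl_X_castSucc (i : Fin m) : sl m k (MvPowerSeries.X i.castSucc) = MvPowerSeries.X i := by
  ext n j
  rw [coeff_coeff_sl, MvPowerSeries.coeff_X, MvPowerSeries.coeff_X]
  by_cases h : n = Finsupp.single i 1
  · rw [if_pos h, PowerSeries.coeff_one]
    refine if_congr ?_ rfl rfl
    rw [← sn_single_castSucc, sn_inj]
    simp [h]
  · rw [if_neg h, if_neg, map_zero]
    rw [← sn_single_castSucc, sn_inj]
    exact fun h' => h h'.1

@[simp] theorem sl_X_last : sl m k (MvPowerSeries.X (Fin.last m)) = MvPowerSeries.C PowerSeries.X := by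
  ext n j
  rw [coeff_coeff_sl, MvPowerSeries.coeff_X, MvPowerSeries.coeff_C]
  by_cases h : n = 0
  · rw [if_pos h, PowerSeries.coeff_X]
    refine if_congr ?_ rfl rfl
    rw [← sn_single_last, sn_inj]
    simp [h]
  · rw [if_neg h, if_neg, map_zero]
    rw [← sn_single_last, sn_inj]
    exact fun h' => h h'.1

@[simp] theorem sl_C (a : k) : sl m k (MvPowerSeries.C a) = MvPowerSeries.C (PowerSeries.C a) := by
  ext n j
  rw [coeff_coeff_sl, MvPowerSeries.coeff_C, MvPowerSeries.coeff_C]
  by_cases h : n = 0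
  · rw [if_pos h, PowerSeries.coeff_C]
    refine if_congr ?_ rfl rfl
    rw [← sn_zero, sn_inj]
    simp [h]
  · rw [if_neg h, if_neg, map_zero]
    rw [← sn_zero, sn_inj]
    exact fun h' => h h'.1

variable (m k)

/-- the embedding `k⟦X⟧ → MvPowerSeries (Fin (m + 1)) k`, `X` goes to the last variable -/
def emb : PowerSeries k →+* MvPowerSeries (Fin (m + 1)) k :=
  ((sl m k).symm : MvPowerSeries (Fin m) (PowerSeries k) →+* MvPowerSeries (Fin (m + 1)) k).comp
    (MvPowerSeries.C (σ := Fin m) (R := PowerSeries k))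

/-- the reduction modulo the first variables -/
def res : MvPowerSeries (Fin (m + 1)) k →+* PowerSeries k :=
  (MvPowerSeries.constantCoeff (σ := Fin m) (R := PowerSeries k)).comp
    (sl m k : MvPowerSeries (Fin (m + 1)) k →+* MvPowerSeries (Fin m) (PowerSeries k))

variable {m k}

@[simp] theorem sl_emb (a : PowerSeries k) : sl m k (emb m k a) = MvPowerSeries.C a := by
  have h : emb m k a = (sl m k).symm (MvPowerSeries.C a) := rfl
  rw [h]
  exact (sl m k).apply_symm_apply (MvPowerSeries.C a)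

@[simp] theorem emb_X : emb m k PowerSeries.X = MvPowerSeries.X (Fin.last m) :=
  (sl m k).injective (by rw [sl_emb, sl_X_last])

@[simp] theorem emb_C (a : k) : emb m k (PowerSeries.C a) = MvPowerSeries.C a :=
  (sl m k).injective (by rw [sl_emb, sl_C])

theorem res_apply (x : MvPowerSeries (Fin (m + 1)) k) :
    res m k x = MvPowerSeries.constantCoeff (sl m k x) := rfl

theorem coeff_res (x : MvPowerSeries (Fin (m + 1)) k) (j : ℕ) :
    PowerSeries.coeff j (res m k x) = MvPowerSeries.coeff (Finsupp.single (Fin.last m) j) x := by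
  rw [res_apply, ← MvPowerSeries.coeff_zero_eq_constantCoeff_apply, coeff_coeff_sl, sn_single_last]

@[simp] theorem res_emb (a : PowerSeries k) : res m k (emb m k a) = a := by
  rw [res_apply, sl_emb, MvPowerSeries.constantCoeff_C]

@[simp] theorem res_X_castSucc (i : Fin m) : res m k (MvPowerSeries.X i.castSucc) = 0 := by
  rw [res_apply, sl_X_castSucc, MvPowerSeries.constantCoeff_X]

@[simp] theorem res_X_last : res m k (MvPowerSeries.X (Fin.last m)) = PowerSeries.X := by
  rw [res_apply, sl_X_last, MvPowerSeries.constantCoeff_C]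

@[simp] theorem res_C (a : k) : res m k (MvPowerSeries.C a) = PowerSeries.C a := by
  rw [res_apply, sl_C, MvPowerSeries.constantCoeff_C]

theorem res_surjective : Function.Surjective (res m k) := fun a => ⟨emb m k a, res_emb a⟩

variable (m k) in
/-- the ideal generated by the first `m` variables of `MvPowerSeries (Fin (m + 1)) k` -/
def cI : Ideal (MvPowerSeries (Fin (m + 1)) k) :=
  Ideal.span (Set.range fun i : Fin m => (MvPowerSeries.X i.castSucc : MvPowerSeries (Fin (m + 1)) k))

theorem map_cI : (cI m k).map (sl m k : MvPowerSeries (Fin (m + 1)) k →+* MvPowerSeries (Fin m) (PowerSeries k)) =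
    vI (Fin m) (PowerSeries k) := by
  rw [cI, Ideal.map_span, vI]
  congr 1
  ext y
  constructor
  · rintro ⟨_, ⟨i, rfl⟩, rfl⟩
    exact ⟨i, (sl_X_castSucc i).symm⟩
  · rintro ⟨i, rfl⟩
    exact ⟨_, ⟨i, rfl⟩, sl_X_castSucc i⟩

theorem sl_mem_pow (x : MvPowerSeries (Fin (m + 1)) k) (s : ℕ) :
    sl m k x ∈ vI (Fin m) (PowerSeries k) ^ s ↔ x ∈ cI m k ^ s := by
  rw [← map_cI, ← Ideal.map_pow]
  constructor
  · intro h
    obtain ⟨y, hy, hxy⟩ := (Ideal.mem_map_iff_of_surjective
      (sl m k : MvPowerSeries (Fin (m + 1)) k →+* MvPowerSeries (Fin m) (PowerSeries k))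
      (sl m k).surjective).1 h
    have h1 : y = x := (sl m k).injective hxy
    rw [← h1]
    exact hy
  · intro h
    exact Ideal.mem_map_of_mem _ h

theorem cI_eq_ker : cI m k = RingHom.ker (res m k) := by
  ext x
  rw [← pow_one (cI m k), ← sl_mem_pow, pow_one, vI_eq_ker]
  rfl

end sl

section mem

variable {σ : Type*} {R : Type*} [CommRing R]

private def chS (S : Set σ) (x : σ →₀ ℕ) (i : σ) : Prop := ∃ h : ∃ l ∈ S, x l ≠ 0, h.choose = i

private def qtS (S : Set σ) (f : MvPowerSeries σ R) (i : σ) : MvPowerSeries σ R :=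
  fun y => if chS S (y + Finsupp.single i 1) i then MvPowerSeries.coeff (y + Finsupp.single i 1) f else 0

private theorem coeff_qtS (S : Set σ) (f : MvPowerSeries σ R) (i : σ) (y : σ →₀ ℕ) :
    MvPowerSeries.coeff y (qtS S f i) =
      if chS S (y + Finsupp.single i 1) i then MvPowerSeries.coeff (y + Finsupp.single i 1) f else 0 := rfl

private def sI (S : Set σ) : Ideal (MvPowerSeries σ R) where
  carrier := {f | ∀ x : σ →₀ ℕ, (∀ i ∈ S, x i = 0) → MvPowerSeries.coeff x f = 0}
  add_mem' := by
    intro a b ha hb x hx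
    rw [map_add, ha x hx, hb x hx, add_zero]
  zero_mem' := by
    intro x _
    exact map_zero _
  smul_mem' := by
    intro c f hf x hx
    rw [smul_eq_mul, MvPowerSeries.coeff_mul]
    refine Finset.sum_eq_zero fun p hp => ?_
    have h1 : p.1 + p.2 = x := Finset.HasAntidiagonal.mem_antidiagonal.1 hp
    rw [hf p.2, mul_zero]
    intro i hi
    have h2 := hx i hi
    rw [← h1, Finsupp.add_apply] at h2
    omega

/-- membership in the ideal generated by some of the variables -/
theorem mem_span_X [Finite σ] (S : Set σ) {f : MvPowerSeries σ R} :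
    f ∈ Ideal.span {x | ∃ i ∈ S, x = (MvPowerSeries.X i : MvPowerSeries σ R)} ↔
      ∀ x : σ →₀ ℕ, (∀ i ∈ S, x i = 0) → MvPowerSeries.coeff x f = 0 := by
  cases nonempty_fintype σ
  constructor
  · intro hf
    have h : Ideal.span {x | ∃ i ∈ S, x = (MvPowerSeries.X i : MvPowerSeries σ R)} ≤ sI S := by
      rw [Ideal.span_le]
      rintro _ ⟨i, hi, rfl⟩ x hx
      rw [MvPowerSeries.coeff_X, if_neg]
      intro h
      have h1 := hx i hi
      rw [h, Finsupp.single_apply, if_pos rfl] at h1
      exact one_ne_zero h1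
    exact h hf
  · intro hf
    have h0 : ∑ i, MvPowerSeries.X i * qtS S f i = f := by
      ext x
      rw [map_sum]
      have h1 : ∀ i : σ, MvPowerSeries.coeff x (MvPowerSeries.X i * qtS S f i) =
          if chS S x i then MvPowerSeries.coeff x f else 0 := by
        intro i
        rw [MvPowerSeries.X_def, MvPowerSeries.coeff_monomial_mul]
        by_cases hi : Finsupp.single i 1 ≤ x
        · rw [if_pos hi, one_mul, coeff_qtS, tsub_add_cancel_of_le hi]
        · rw [if_neg hi, if_neg]
          rintro ⟨h, hc⟩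
          apply hi
          have h2 := h.choose_spec.2
          rw [hc] at h2
          rw [Finsupp.single_le_iff]
          omega
      rw [Finset.sum_congr rfl fun i _ => h1 i]
      by_cases hx : ∃ l ∈ S, x l ≠ 0
      · rw [Finset.sum_eq_single hx.choose]
        · rw [if_pos ⟨hx, rfl⟩]
        · intro i _ hi
          rw [if_neg]
          rintro ⟨h, hc⟩
          exact hi hc.symm
        · intro h
          exact absurd (Finset.mem_univ _) h
      · rw [Finset.sum_eq_zero]
        · refine (hf x fun i hi => ?_).symm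
          by_contra h
          exact hx ⟨i, hi, h⟩
        · intro i _
          rw [if_neg]
          rintro ⟨h, _⟩
          exact hx h
    rw [← h0]
    refine Ideal.sum_mem _ fun i _ => ?_
    by_cases hi : i ∈ S
    · exact Ideal.mul_mem_right _ _ (Ideal.subset_span ⟨i, hi, rfl⟩)
    · have h1 : qtS S f i = 0 := by
        ext y
        rw [coeff_qtS, if_neg, map_zero]
        rintro ⟨h, hc⟩
        exact hi (hc ▸ h.choose_spec.1)
      rw [h1, mul_zero]
      exact zero_mem _

end mem

section iota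

open Pool.Agent.H13.CA (Istd)

variable (m : ℕ) (k : Type*) [CommRing k] (K : Type*) [CommRing K] [Algebra (PowerSeries k) K]

/-- `MvPowerSeries (Fin (m + 1)) k → MvPowerSeries (Fin m) K`: `X i.castSucc` goes to `X i`, the last variable goes to
`C (algebraMap X)`. -/
def iota : MvPowerSeries (Fin (m + 1)) k →+* MvPowerSeries (Fin m) K :=
  (MvPowerSeries.map (σ := Fin m) (algebraMap (PowerSeries k) K)).comp
    (sl m k : MvPowerSeries (Fin (m + 1)) k →+* MvPowerSeries (Fin m) (PowerSeries k))

variable {m k K}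

theorem iota_apply (x : MvPowerSeries (Fin (m + 1)) k) :
    iota m k K x = MvPowerSeries.map (algebraMap (PowerSeries k) K) (sl m k x) := rfl

theorem coeff_iota (x : MvPowerSeries (Fin (m + 1)) k) (n : Fin m →₀ ℕ) :
    MvPowerSeries.coeff n (iota m k K x) = algebraMap (PowerSeries k) K (MvPowerSeries.coeff n (sl m k x)) := by
  rw [iota_apply, MvPowerSeries.coeff_map]

@[simp] theorem iota_X_castSucc (i : Fin m) : iota m k K (MvPowerSeries.X i.castSucc) = MvPowerSeries.X i := by
  rw [iota_apply, sl_X_castSucc, MvPowerSeries.map_X]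

@[simp] theorem iota_X_last : iota m k K (MvPowerSeries.X (Fin.last m)) =
    MvPowerSeries.C (algebraMap (PowerSeries k) K PowerSeries.X) := by
  rw [iota_apply, sl_X_last, MvPowerSeries.map_C]

@[simp] theorem iota_C (a : k) : iota m k K (MvPowerSeries.C a) =
    MvPowerSeries.C (algebraMap (PowerSeries k) K (PowerSeries.C a)) := by
  rw [iota_apply, sl_C, MvPowerSeries.map_C]

@[simp] theorem iota_emb (a : PowerSeries k) : iota m k K (emb m k a) =
    MvPowerSeries.C (algebraMap (PowerSeries k) K a) := by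
  rw [iota_apply, sl_emb, MvPowerSeries.map_C]

theorem constantCoeff_iota (x : MvPowerSeries (Fin (m + 1)) k) :
    MvPowerSeries.constantCoeff (iota m k K x) = algebraMap (PowerSeries k) K (res m k x) := by
  rw [iota_apply, MvPowerSeries.constantCoeff_map]
  rfl

theorem iota_injective (hK : Function.Injective (algebraMap (PowerSeries k) K)) :
    Function.Injective (iota m k K) := by
  intro x y h
  apply (sl m k).injective
  ext1 n
  apply hK
  rw [← coeff_iota, ← coeff_iota, h]

theorem iota_mem_pow (hK : Function.Injective (algebraMap (PowerSeries k) K))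
    (x : MvPowerSeries (Fin (m + 1)) k) (s : ℕ) :
    iota m k K x ∈ vI (Fin m) K ^ s ↔ x ∈ cI m k ^ s := by
  rw [← sl_mem_pow, mem_vI_pow, mem_vI_pow]
  refine forall_congr' fun n => forall_congr' fun _ => ?_
  rw [coeff_iota]
  exact map_eq_zero_iff _ hK

theorem iota_mem_oI (hK : Function.Injective (algebraMap (PowerSeries k) K))
    (x : MvPowerSeries (Fin (m + 1)) k) (s : ℕ) :
    iota m k K x ∈ oI (Fin m) K s ↔ x ∈ cI m k ^ s := by
  rw [← vI_pow, iota_mem_pow hK]

theorem Istd_eq {F : Type*} [Field F] (m j : ℕ) :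
    Istd F m j = Ideal.span {x | ∃ i ∈ {i : Fin m | i.val < j}, x = (MvPowerSeries.X i : MvPowerSeries (Fin m) F)} :=
  rfl

theorem mem_Istd {F : Type*} [Field F] {m j : ℕ} {f : MvPowerSeries (Fin m) F} :
    f ∈ Istd F m j ↔ ∀ x : Fin m →₀ ℕ, (∀ i : Fin m, i.val < j → x i = 0) → MvPowerSeries.coeff x f = 0 := by
  rw [Istd_eq, mem_span_X]
  rfl

theorem Istd_eq_cI {F : Type*} [Field F] (m : ℕ) : Istd F (m + 1) m = cI m F := by
  rw [Istd, cI]
  congr 1
  ext x
  constructor
  · rintro ⟨i, hi, rfl⟩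
    exact ⟨⟨i.val, hi⟩, rfl⟩
  · rintro ⟨i, rfl⟩
    exact ⟨i.castSucc, i.isLt, rfl⟩

theorem iota_mem_Istd {F L : Type*} [Field F] [Field L] [Algebra (PowerSeries F) L]
    (hL : Function.Injective (algebraMap (PowerSeries F) L)) {j : ℕ} (hj : j ≤ m)
    (x : MvPowerSeries (Fin (m + 1)) F) :
    iota m F L x ∈ Istd L m j ↔ x ∈ Istd F (m + 1) j := by
  rw [mem_Istd, mem_Istd]
  constructor
  · intro h a ha
    have h1 := h (ini a) fun i hi => ha i.castSucc hi
    rw [coeff_iota, map_eq_zero_iff _ hL] at h1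
    rw [← sn_ini a, ← coeff_coeff_sl, h1, map_zero]
  · intro h n hn
    rw [coeff_iota, map_eq_zero_iff _ hL]
    ext t
    rw [coeff_coeff_sl, map_zero]
    apply h
    intro i hi
    have h1 : i = (⟨i.val, by omega⟩ : Fin m).castSucc := rfl
    rw [h1, sn_castSucc]
    exact hn _ hi

theorem map_iota_Istd {F L : Type*} [Field F] [Field L] [Algebra (PowerSeries F) L] {j : ℕ} (hj : j ≤ m) :
    (Istd F (m + 1) j).map (iota m F L) = Istd L m j := by
  rw [Istd, Ideal.map_span, Istd]
  congr 1
  ext y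
  constructor
  · rintro ⟨_, ⟨i, hi, rfl⟩, rfl⟩
    exact ⟨⟨i.val, by omega⟩, hi, iota_X_castSucc (⟨i.val, by omega⟩ : Fin m)⟩
  · rintro ⟨i, hi, rfl⟩
    exact ⟨_, ⟨i.castSucc, hi, rfl⟩, iota_X_castSucc i⟩

theorem comap_iota_Istd {F L : Type*} [Field F] [Field L] [Algebra (PowerSeries F) L]
    (hL : Function.Injective (algebraMap (PowerSeries F) L)) {j : ℕ} (hj : j ≤ m) :
    (Istd L m j).comap (iota m F L) = Istd F (m + 1) j := by
  ext x
  exact iota_mem_Istd hL hj x

end iota

end Pool.Agent.H84.CA
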